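import Mathlib

set_option autoImplicit false

/-! Averages over finite types, with the marginal and Chebyshev facts used below. -/

namespace Pool.Agent.Lib.MP4530

open Finset BigOperators

/-- Average of a real function over a finite type. -/
noncomputable def E {Ω : Type*} [Fintype Ω] (f : Ω → ℝ) : ℝ :=
  (∑ ω, f ω) / (Fintype.card Ω : ℝ)

/-- Real indicator of a proposition. -/
noncomputable def ind (P : Prop) : ℝ := by
  classical exact if P then 1 else 0

lemma ind_true {P : Prop} (h : P) : ind P = 1 := by simp [ind, h]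
lemma ind_false {P : Prop} (h : ¬ P) : ind P = 0 := by simp [ind, h]
lemma ind_nonneg (P : Prop) : 0 ≤ ind P := by
  by_cases h : P <;> simp [ind, h]
lemma ind_le_one (P : Prop) : ind P ≤ 1 := by
  by_cases h : P <;> simp [ind, h]
lemma ind_mono {P Q : Prop} (h : P → Q) : ind P ≤ ind Q := by
  by_cases hP : P
  · rw [ind_true hP, ind_true (h hP)]
  · rw [ind_false hP]; exact ind_nonneg _
lemma ind_or_le (P Q : Prop) : ind (P ∨ Q) ≤ ind P + ind Q := by
  by_cases hP : P
  · rw [ind_true hP, ind_true (Or.inl hP)]; linarith [ind_nonneg Q]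
  · by_cases hQ : Q
    · rw [ind_true hQ, ind_true (Or.inr hQ)]; linarith [ind_nonneg P]
    · rw [ind_false (by tauto)]; linarith [ind_nonneg P, ind_nonneg Q]
lemma ind_exists_le {ι : Type*} [Fintype ι] (P : ι → Prop) :
    ind (∃ i, P i) ≤ ∑ i, ind (P i) := by
  by_cases h : ∃ i, P i
  · obtain ⟨i, hi⟩ := h
    rw [ind_true ⟨i, hi⟩, ← ind_true hi]
    exact Finset.single_le_sum (f := fun i => ind (P i)) (fun j _ => ind_nonneg _) (mem_univ i)
  · rw [ind_false h]
    exact Finset.sum_nonneg fun j _ => ind_nonneg _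

section
variable {Ω Ω' : Type*} [Fintype Ω] [Fintype Ω']

lemma card_pos' [Nonempty Ω] : (0:ℝ) < (Fintype.card Ω : ℝ) := by
  exact_mod_cast Fintype.card_pos

lemma E_const [Nonempty Ω] (c : ℝ) : E (fun _ : Ω => c) = c := by
  have := card_pos' (Ω := Ω)
  unfold E; simp only [sum_const, card_univ, nsmul_eq_mul]; field_simp

lemma E_mono {f g : Ω → ℝ} (h : ∀ ω, f ω ≤ g ω) : E f ≤ E g := by
  unfold E
  exact div_le_div_of_nonneg_right (Finset.sum_le_sum fun i _ => h i) (by positivity)

lemma E_nonneg {f : Ω → ℝ} (h : ∀ ω, 0 ≤ f ω) : 0 ≤ E f := by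
  unfold E
  exact div_nonneg (Finset.sum_nonneg fun i _ => h i) (by positivity)

lemma E_add (f g : Ω → ℝ) : E (fun ω => f ω + g ω) = E f + E g := by
  unfold E; rw [Finset.sum_add_distrib, add_div]

lemma E_sub (f g : Ω → ℝ) : E (fun ω => f ω - g ω) = E f - E g := by
  unfold E; rw [Finset.sum_sub_distrib, sub_div]

lemma E_mul_left (c : ℝ) (f : Ω → ℝ) : E (fun ω => c * f ω) = c * E f := by
  unfold E; rw [← Finset.mul_sum, mul_div_assoc]

lemma E_finset_sum {ι : Type*} (s : Finset ι) (f : ι → Ω → ℝ) :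
    E (fun ω => ∑ i ∈ s, f i ω) = ∑ i ∈ s, E (f i) := by
  unfold E
  rw [Finset.sum_comm, Finset.sum_div]

lemma E_equiv (e : Ω ≃ Ω') (f : Ω' → ℝ) : E (fun ω => f (e ω)) = E f := by
  unfold E
  rw [Fintype.sum_equiv e (fun ω => f (e ω)) f (fun _ => rfl), Fintype.card_congr e]

lemma E_prod (f : Ω × Ω' → ℝ) : E f = E (fun a => E (fun b => f (a, b))) := by
  unfold E
  rw [Fintype.sum_prod_type, Fintype.card_prod, ← Finset.sum_div]
  push_cast
  rw [div_div, mul_comm]

lemma E_le_one [Nonempty Ω] {f : Ω → ℝ} (h : ∀ ω, f ω ≤ 1) : E f ≤ 1 := by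
  calc E f ≤ E (fun _ : Ω => (1:ℝ)) := E_mono h
    _ = 1 := E_const 1

lemma exists_lt_of_E_lt [Nonempty Ω] {f : Ω → ℝ} {c : ℝ} (h : E f < c) : ∃ ω, f ω < c := by
  by_contra hcon
  push Not at hcon
  have : c ≤ E f := by
    calc c = E (fun _ : Ω => c) := (E_const c).symm
      _ ≤ E f := E_mono hcon
  linarith

lemma exists_le_of_E_le [Nonempty Ω] {f : Ω → ℝ} {c : ℝ} (h : E f ≤ c) : ∃ ω, f ω ≤ c := by
  by_contra hcon
  push Not at hcon
  have : c < E f := by
    have h2 : ∑ ω : Ω, c < ∑ ω : Ω, f ω :=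
      Finset.sum_lt_sum_of_nonempty univ_nonempty (fun i _ => hcon i)
    have h3 := card_pos' (Ω := Ω)
    unfold E
    rw [lt_div_iff₀ h3]
    simpa [mul_comm] using h2
  linarith

/-- Markov's inequality. -/
lemma markov {f : Ω → ℝ} (hf : ∀ ω, 0 ≤ f ω) {t : ℝ} (ht : 0 < t) :
    E (fun ω => ind (t ≤ f ω)) ≤ E f / t := by
  rw [le_div_iff₀ ht, mul_comm, ← E_mul_left]
  apply E_mono
  intro ω
  by_cases h : t ≤ f ω
  · rw [ind_true h]; linarith
  · rw [ind_false h]; simpa using hf ω

end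

section marginals
variable {V : Type*} [Fintype V] [Nonempty V]

/-- Restricting a uniformly random tuple along an injection gives a uniformly random tuple. -/
lemma E_marginal {α β : Type*} [Fintype α] [Fintype β] [DecidableEq α] [DecidableEq β]
    (ι : α → β) (hι : Function.Injective ι) (f : (α → V) → ℝ) :
    E (fun z : β → V => f (z ∘ ι)) = E f := by
  classical
  let p : β → Prop := fun b => b ∈ Set.range ι
  let e : (β → V) ≃ ({b // p b} → V) × ({b // ¬ p b} → V) :=
    Equiv.piEquivPiSubtypeProd p (fun _ => V)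
  let i : α ≃ {b // p b} := Equiv.ofInjective ι hι
  let e2 : ({b // p b} → V) ≃ (α → V) := Equiv.arrowCongr i.symm (Equiv.refl V)
  have h1 : E (fun z : β → V => f (z ∘ ι)) = E (fun w : ({b // p b} → V) × ({b // ¬ p b} → V) => f (e2 w.1)) := by
    rw [← E_equiv e (fun w : ({b // p b} → V) × ({b // ¬ p b} → V) => f (e2 w.1))]
    congr 1
  rw [h1, E_prod]
  simp only []
  have h2 : (fun a : {b // p b} → V => E (fun _ : {b // ¬ p b} → V => f (e2 a)))
      = fun a => f (e2 a) := by
    funext a; exact E_const _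
  rw [h2]
  exact E_equiv e2 f

lemma E_coord {β : Type*} [Fintype β] [DecidableEq β] (b : β) (g : V → ℝ) :
    E (fun z : β → V => g (z b)) = E g := by
  have h := E_marginal (V := V) (fun _ : Unit => b) (fun _ _ _ => Subsingleton.elim _ _)
    (fun u => g (u ()))
  have h2 : E (fun u : Unit → V => g (u ())) = E g :=
    E_equiv (Equiv.funUnique Unit V) g
  rw [← h2, ← h]
  rfl

lemma E_pair {β : Type*} [Fintype β] [DecidableEq β] (b b' : β) (hb : b ≠ b') (g : V → V → ℝ) :
    E (fun z : β → V => g (z b) (z b')) = E (fun x => E (fun y => g x y)) := by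
  have hinj : Function.Injective (fun i : Fin 2 => if i = 0 then b else b') := by
    intro i j hij
    fin_cases i <;> fin_cases j <;> simp_all
  have h := E_marginal (V := V) (fun i : Fin 2 => if i = 0 then b else b') hinj
    (fun u => g (u 0) (u 1))
  have h2 : E (fun u : Fin 2 → V => g (u 0) (u 1)) = E (fun w : V × V => g w.1 w.2) :=
    E_equiv (finTwoArrowEquiv V) (fun w => g w.1 w.2)
  rw [← E_prod (fun w : V × V => g w.1 w.2), ← h2, ← h]
  simp

/-- Variance of an empirical mean. -/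
lemma E_emp_sq {M : ℕ} (hM : 0 < M) (g : V → ℝ) (h0 : ∀ x, 0 ≤ g x) (h1 : ∀ x, g x ≤ 1) :
    E (fun y : Fin M → V => ((∑ j, g (y j)) / M - E g) ^ 2) ≤ 1 / M := by
  set m := E g with hm
  have hm0 : 0 ≤ m := E_nonneg h0
  have hm1 : m ≤ 1 := E_le_one h1
  let f : V → ℝ := fun x => g x - m
  have hf : E f = 0 := by
    have : E f = E g - E (fun _ : V => m) := E_sub g (fun _ => m)
    rw [this, E_const]; ring
  have hfsq : ∀ x, f x * f x ≤ 1 := by
    intro x
    have a := h0 x; have b := h1 x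
    have : -1 ≤ f x ∧ f x ≤ 1 := by constructor <;> simp only [f] <;> linarith
    nlinarith [this.1, this.2]
  have hMr : (0:ℝ) < M := by exact_mod_cast hM
  have key : (fun y : Fin M → V => ((∑ j, g (y j)) / M - m) ^ 2)
      = fun y => (1 / (M:ℝ) ^ 2) * ∑ j, ∑ l, f (y j) * f (y l) := by
    funext y
    have h3 : (∑ j, g (y j)) / M - m = (∑ j, f (y j)) / M := by
      simp only [f, Finset.sum_sub_distrib, sum_const, card_univ, Fintype.card_fin, nsmul_eq_mul]
      field_simp
    rw [h3, div_pow, sq (∑ j, f (y j)), Finset.sum_mul_sum]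
    ring
  rw [key, E_mul_left, E_finset_sum]
  have h4 : ∀ j : Fin M, E (fun y : Fin M → V => ∑ l, f (y j) * f (y l)) ≤ 1 := by
    intro j
    rw [E_finset_sum, ← Finset.sum_erase_add _ _ (mem_univ j)]
    have h5 : ∑ l ∈ univ.erase j, E (fun y : Fin M → V => f (y j) * f (y l)) = 0 := by
      apply Finset.sum_eq_zero
      intro l hl
      have hl' : l ≠ j := Finset.ne_of_mem_erase hl
      rw [E_pair j l hl'.symm (fun x y => f x * f y)]
      have : (fun x => E (fun y => f x * f y)) = fun x => (0:ℝ) := by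
        funext x; rw [E_mul_left, hf, mul_zero]
      rw [this, E_const]
    rw [h5, zero_add]
    exact E_le_one fun y => hfsq (y j)
  calc 1 / (M:ℝ)^2 * ∑ j : Fin M, E (fun y : Fin M → V => ∑ l, f (y j) * f (y l))
      ≤ 1 / (M:ℝ)^2 * ∑ _j : Fin M, (1:ℝ) := by
        apply mul_le_mul_of_nonneg_left (Finset.sum_le_sum fun j _ => h4 j) (by positivity)
    _ = 1 / (M:ℝ) := by
        simp only [sum_const, card_univ, Fintype.card_fin, nsmul_eq_mul, mul_one]
        field_simp

/-- Chebyshev's inequality for empirical means. -/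
lemma chebyshev {M : ℕ} (hM : 0 < M) (g : V → ℝ) (h0 : ∀ x, 0 ≤ g x) (h1 : ∀ x, g x ≤ 1)
    {t : ℝ} (ht : 0 < t) :
    E (fun y : Fin M → V => ind (t ≤ |(∑ j, g (y j)) / M - E g|)) ≤ 1 / (M * t ^ 2) := by
  have h := markov (Ω := Fin M → V) (f := fun y => ((∑ j, g (y j)) / M - E g) ^ 2)
    (fun _ => sq_nonneg _) (t := t ^ 2) (by positivity)
  have h2 : E (fun y : Fin M → V => ind (t ≤ |(∑ j, g (y j)) / M - E g|))
      ≤ E (fun y : Fin M → V => ind (t ^ 2 ≤ ((∑ j, g (y j)) / M - E g) ^ 2)) := by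
    apply E_mono
    intro y
    apply ind_mono
    intro hy
    rw [← sq_abs ((∑ j, g (y j)) / M - E g)]
    exact pow_le_pow_left₀ ht.le hy 2
  have h3 := E_emp_sq hM g h0 h1
  have hMr : (0:ℝ) < M := by exact_mod_cast hM
  calc _ ≤ _ := h2
    _ ≤ _ := h
    _ ≤ (1 / M) / t ^ 2 := by
        apply div_le_div_of_nonneg_right h3 (by positivity)
    _ = 1 / (M * t ^ 2) := by rw [div_div]

end marginals

end Pool.Agent.Lib.MP4530
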