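import Pool.Agent.Lib.MP_4530c2_lc.Packing

set_option autoImplicit false
set_option linter.unusedSectionVars false

/-! A configuration of `d+1` points that is an average of `d` but not of `d-1` Bradley-Terry
kernels, and density of the difference. -/

namespace Pool.Agent.Lib.MP4530

open Finset BigOperators

/-- exponent of point `j` in coordinate `c` -/
def rk (d : ℕ) (c : Fin d) (j : Fin (d + 1)) : ℕ :=
  (d - j.val) + if c.val < j.val then d + 1 else 0

/-- the parameter -/
noncomputable def TT (d : ℕ) : ℝ := 2 * (d:ℝ) ^ 2 + (2 * (d:ℝ)) ^ d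

/-- the configuration -/
noncomputable def bb (d : ℕ) (j : Fin (d + 1)) (c : Fin d) : ℝ := TT d ^ rk d c j

lemma TT_pos {d : ℕ} (hd : 2 ≤ d) : 0 < TT d := by
  have : (0:ℝ) < d := by exact_mod_cast (by omega : 0 < d)
  unfold TT; positivity

lemma bb_pos {d : ℕ} (hd : 2 ≤ d) (j : Fin (d + 1)) (c : Fin d) : 0 < bb d j c :=
  pow_pos (TT_pos hd) _

lemma bb_step_le {d : ℕ} (hd : 2 ≤ d) (j : Fin d) :
    F (bb d j.succ) (bb d j.castSucc) ≤ (1 / (d:ℝ)) * (1 + (d - 1 : ℝ) / (1 + TT d)) := by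
  have hT := TT_pos hd
  have hdr : (0:ℝ) < d := by exact_mod_cast (by omega : 0 < d)
  unfold F
  apply mul_le_mul_of_nonneg_left _ (by positivity)
  rw [← Finset.add_sum_erase _ _ (mem_univ j)]
  apply add_le_add
  · exact bt_le_one (bb_pos hd _ _) (bb_pos hd _ _)
  · have hterm : ∀ c ∈ univ.erase j,
        bb d j.succ c / (bb d j.succ c + bb d j.castSucc c) = 1 / (1 + TT d) := by
      intro c hc
      have hne : c ≠ j := Finset.ne_of_mem_erase hc
      have hne' : c.val ≠ j.val := fun h => hne (Fin.ext h)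
      have hrk : rk d c j.castSucc = rk d c j.succ + 1 := by
        unfold rk
        simp only [Fin.val_castSucc, Fin.val_succ]
        have := j.isLt
        split_ifs <;> omega
      unfold bb
      rw [hrk, pow_succ]
      have : (0:ℝ) < TT d ^ rk d c j.succ := pow_pos hT _
      field_simp
    rw [Finset.sum_congr rfl hterm, sum_const, card_erase_of_mem (mem_univ j), card_univ,
      Fintype.card_fin, nsmul_eq_mul]
    have : ((d - 1 : ℕ) : ℝ) = (d:ℝ) - 1 := by
      rw [Nat.cast_sub (by omega)]; simp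
    rw [this]
    apply le_of_eq; ring

lemma bb_last {d : ℕ} (hd : 2 ≤ d) :
    F (bb d (Fin.last d)) (bb d 0) = TT d / (TT d + 1) := by
  have hT := TT_pos hd
  have hdr : (0:ℝ) < d := by exact_mod_cast (by omega : 0 < d)
  unfold F
  have hterm : ∀ c : Fin d, bb d (Fin.last d) c / (bb d (Fin.last d) c + bb d 0 c)
      = TT d / (TT d + 1) := by
    intro c
    have e1 : rk d c (Fin.last d) = d + 1 := by
      unfold rk
      have := c.isLt
      simp
    have e2 : rk d c 0 = d := by
      unfold rk; simp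
    unfold bb
    rw [e1, e2, pow_succ]
    have : (0:ℝ) < TT d ^ d := pow_pos hT _
    field_simp
  rw [Finset.sum_congr rfl fun c _ => hterm c]
  simp only [sum_const, card_univ, Fintype.card_fin, nsmul_eq_mul]
  field_simp

/-- The configuration is not an average of `d-1` kernels. -/
lemma config {d : ℕ} (hd : 2 ≤ d) (a : Fin (d + 1) → Fin (d - 1) → ℝ) (ha : ∀ j c, 0 < a j c)
    (h : ∀ j k, j ≠ k → F (bb d j) (bb d k) = F (a j) (a k)) : False := by
  have hT := TT_pos hd
  have hd2 : (2:ℝ) ≤ d := by exact_mod_cast hd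
  have hdr : (0:ℝ) < d := by linarith
  have hD : ((d - 1 : ℕ) : ℝ) = (d:ℝ) - 1 := by
    rw [Nat.cast_sub (by omega)]; simp
  have hD0 : (0:ℝ) < (d:ℝ) - 1 := by linarith
  -- one step
  have hstep : ∀ (j : Fin d) (c : Fin (d - 1)), a j.succ c ≤ (2 * (d:ℝ)) * a j.castSucc c := by
    intro j c
    have hne : j.succ ≠ j.castSucc := by
      intro hcon
      have := congrArg Fin.val hcon
      simp at this
    have e1 := bb_step_le hd j
    rw [h _ _ hne] at e1
    unfold F at e1
    rw [hD] at e1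
    have e2 : a j.succ c / (a j.succ c + a j.castSucc c)
        ≤ ∑ i, a j.succ i / (a j.succ i + a j.castSucc i) :=
      Finset.single_le_sum (f := fun i => a j.succ i / (a j.succ i + a j.castSucc i))
        (fun i _ => bt_nonneg (ha _ _) (ha _ _)) (mem_univ c)
    have e3 : ∑ i, a j.succ i / (a j.succ i + a j.castSucc i)
        ≤ ((d:ℝ) - 1) * ((1 / (d:ℝ)) * (1 + (d - 1 : ℝ) / (1 + TT d))) := by
      rw [one_div, inv_mul_le_iff₀ hD0] at e1
      exact e1
    have e4 : ((d:ℝ) - 1) * ((1 / (d:ℝ)) * (1 + (d - 1 : ℝ) / (1 + TT d))) ≤ 1 - 1 / (2 * d) := by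
      have hTb : 2 * (d:ℝ) ^ 2 ≤ TT d := by
        unfold TT
        have : (0:ℝ) ≤ (2 * (d:ℝ)) ^ d := by positivity
        linarith
      have e5 : (d - 1 : ℝ) / (1 + TT d) ≤ 1 / (2 * d) := by
        rw [div_le_div_iff₀ (by linarith) (by linarith)]
        nlinarith
      have e6 : ((d:ℝ) - 1) * (1 / (d:ℝ)) = 1 - 1 / d := by field_simp
      have e7 : (1 / (d:ℝ)) = 2 * (1 / (2 * d)) := by field_simp
      have e8 : (0:ℝ) < 1 / (2 * d) := by positivity
      have e9 : 0 ≤ (d - 1 : ℝ) / (1 + TT d) := by positivity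
      rw [← mul_assoc, e6, e7]
      have e10 : (1:ℝ) / (2 * d) ≤ 1 / 4 := by
        rw [div_le_div_iff₀ (by linarith) (by norm_num)]; linarith
      nlinarith
    have e11 : a j.succ c / (a j.succ c + a j.castSucc c) ≤ 1 - 1 / (2 * d) := by linarith
    have p1 := ha j.succ c
    have p2 := ha j.castSucc c
    rw [div_le_iff₀ (by linarith)] at e11
    have e12 : (1 - 1 / (2 * (d:ℝ))) * (a j.succ c + a j.castSucc c) * (2 * d)
        = (2 * d - 1) * (a j.succ c + a j.castSucc c) := by field_simp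
    have e13 : a j.succ c * (2 * d) ≤ (2 * d - 1) * (a j.succ c + a j.castSucc c) := by
      rw [← e12]
      exact mul_le_mul_of_nonneg_right e11 (by linarith)
    nlinarith
  have hall : ∀ (c : Fin (d - 1)) (k : ℕ) (hk : k < d + 1),
      a ⟨k, hk⟩ c ≤ (2 * (d:ℝ)) ^ k * a 0 c := by
    intro c k
    induction k with
    | zero => intro hk; simp
    | succ k ih =>
      intro hk
      have h1 := ih (by omega)
      have h2 := hstep ⟨k, by omega⟩ c
      simp only [Fin.succ_mk, Fin.castSucc_mk] at h2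
      calc a ⟨k + 1, hk⟩ c ≤ (2 * (d:ℝ)) * a ⟨k, by omega⟩ c := h2
        _ ≤ (2 * (d:ℝ)) * ((2 * (d:ℝ)) ^ k * a 0 c) :=
            mul_le_mul_of_nonneg_left h1 (by positivity)
        _ = (2 * (d:ℝ)) ^ (k + 1) * a 0 c := by ring
  have hlast : F (a (Fin.last d)) (a 0) ≤ (2 * (d:ℝ)) ^ d / ((2 * (d:ℝ)) ^ d + 1) := by
    unfold F
    have hterm : ∀ c, a (Fin.last d) c / (a (Fin.last d) c + a 0 c)
        ≤ (2 * (d:ℝ)) ^ d / ((2 * (d:ℝ)) ^ d + 1) := by
      intro c
      have h1 := hall c d (by omega)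
      have h2 : (⟨d, by omega⟩ : Fin (d + 1)) = Fin.last d := rfl
      rw [h2] at h1
      have p1 := ha (Fin.last d) c
      have p2 := ha 0 c
      rw [div_le_div_iff₀ (by linarith) (by positivity)]
      nlinarith
    rw [one_div, inv_mul_le_iff₀ (by rw [hD]; exact hD0)]
    calc ∑ i, a (Fin.last d) i / (a (Fin.last d) i + a 0 i)
        ≤ ∑ _i : Fin (d - 1), (2 * (d:ℝ)) ^ d / ((2 * (d:ℝ)) ^ d + 1) :=
          Finset.sum_le_sum fun c _ => hterm c
      _ = ((d - 1 : ℕ) : ℝ) * ((2 * (d:ℝ)) ^ d / ((2 * (d:ℝ)) ^ d + 1)) := by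
          simp only [sum_const, card_univ, Fintype.card_fin, nsmul_eq_mul]
  have hne : Fin.last d ≠ 0 := by
    intro hcon
    have := congrArg Fin.val hcon
    simp at this
    omega
  rw [← h _ _ hne, bb_last hd] at hlast
  have hR : (0:ℝ) < (2 * (d:ℝ)) ^ d := by positivity
  have hTR : (2 * (d:ℝ)) ^ d < TT d := by
    unfold TT
    have : (0:ℝ) < 2 * (d:ℝ) ^ 2 := by positivity
    linarith
  rw [div_le_div_iff₀ (by linarith) (by linarith)] at hlast
  nlinarith

/-- `p` is off the diagonal an average of `d` kernels. -/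
def RepOff {V : Type*} (d : ℕ) (p : V → V → ℝ) : Prop :=
  ∃ a : V → Fin d → ℝ, (∀ x i, 0 < a x i) ∧ ∀ x y, x ≠ y → p x y = F (a x) (a y)

/-- Density: changing the parameters of `d+1` points gives exact dimension `d`. -/
lemma density {V : Type*} [Fintype V] [DecidableEq V] {d : ℕ} (hd : 2 ≤ d)
    (hV : d + 1 ≤ Fintype.card V) (a : V → Fin d → ℝ) (ha : ∀ x i, 0 < a x i) :
    ∃ a' : V → Fin d → ℝ, (∀ x i, 0 < a' x i) ∧
      ¬ RepOff (d - 1) (fun x y => F (a' x) (a' y)) ∧
      ∃ B : Finset V, B.card = d + 1 ∧ ∀ x, x ∉ B → a' x = a x := by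
  classical
  have hemb : Nonempty (Fin (d + 1) ↪ V) := by
    apply Function.Embedding.nonempty_of_card_le
    simpa using hV
  obtain ⟨e⟩ := hemb
  let a' : V → Fin d → ℝ := fun x => if h : ∃ j, e j = x then bb d h.choose else a x
  have ha'e : ∀ j, a' (e j) = bb d j := by
    intro j
    have hex : ∃ k, e k = e j := ⟨j, rfl⟩
    simp only [a']
    rw [dif_pos hex]
    have := hex.choose_spec
    rw [e.injective this]
  refine ⟨a', ?_, ?_, (univ : Finset (Fin (d + 1))).map e, ?_, ?_⟩
  · intro x i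
    simp only [a']
    by_cases h : ∃ j, e j = x
    · rw [dif_pos h]; exact bb_pos hd _ _
    · rw [dif_neg h]; exact ha x i
  · rintro ⟨r, hr, hrp⟩
    apply config hd (fun j => r (e j)) (fun j c => hr _ _)
    intro j k hjk
    have := hrp (e j) (e k) (fun h => hjk (e.injective h))
    simp only [ha'e] at this
    exact this
  · simp
  · intro x hx
    simp only [a']
    rw [dif_neg]
    rintro ⟨j, hj⟩
    apply hx
    rw [Finset.mem_map]
    exact ⟨j, mem_univ _, hj⟩

end Pool.Agent.Lib.MP4530
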