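import Pool.Agent.Lib.MP_4530c2_lc.Packing

set_option autoImplicit false

/-! If random samples are representable, then few rows cover almost all rows. -/

namespace Pool.Agent.Lib.MP4530

open Finset BigOperators

section
variable {V : Type*} [Fintype V] [Nonempty V]

/-- normalised L1 distance of rows -/
noncomputable def rho (p : V → V → ℝ) (x x' : V) : ℝ := E (fun y => |p x y - p x' y|)

/-- the point `u i` is more than `t` away from all the others -/
def Iso (p : V → V → ℝ) (t : ℝ) {α : Type*} (u : α → V) (i : α) : Prop :=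
  ∀ j, j ≠ i → t < rho p (u i) (u j)

lemma E_iso_eq (p : V → V → ℝ) (t : ℝ) {α : Type*} [Fintype α] [DecidableEq α] (i i' : α) :
    E (fun u : α → V => ind (Iso p t u i)) = E (fun u : α → V => ind (Iso p t u i')) := by
  rw [← E_equiv (Equiv.arrowCongr (Equiv.swap i i') (Equiv.refl V))
    (fun u : α → V => ind (Iso p t u i'))]
  congr 1
  funext u
  congr 1
  have hval : ∀ k, (Equiv.arrowCongr (Equiv.swap i i') (Equiv.refl V)) u k = u (Equiv.swap i i' k) := by
    intro k
    simp [Equiv.arrowCongr]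
  apply propext
  unfold Iso
  simp_rw [hval]
  constructor
  · intro h j hj
    rw [Equiv.swap_apply_right]
    apply h
    intro hcon
    apply hj
    have := congrArg (Equiv.swap i i') hcon
    simpa using this
  · intro h j hj
    have h2 := h (Equiv.swap i i' j) (by
      intro hcon
      apply hj
      have := congrArg (Equiv.swap i i') hcon
      simpa using this)
    simpa using h2

lemma cover {d m M s : ℕ} (hd : 0 < d) (hM : 0 < M) (hs : 0 < s) (p : V → V → ℝ)
    (h0 : ∀ x y, 0 ≤ p x y) (h1 : ∀ x y, p x y ≤ 1) (η : ℝ)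
    (hη : E (fun z : Option (Fin m) ⊕ Fin M → V => ind (¬ RepOn d p (Set.range z))) ≤ η) :
    ∃ x' : Fin m → V, E (fun x => ind (∀ j, 1 / (s:ℝ) < rho p x (x' j)))
      ≤ ((2 * s + 1 : ℕ) : ℝ) ^ d / (m + 1) + η + (m + 1) ^ 2 * (4 * s ^ 2 / M) := by
  classical
  have hsr : (0:ℝ) < s := by exact_mod_cast hs
  have hMr : (0:ℝ) < M := by exact_mod_cast hM
  set A := Option (Fin m) with hA
  have hcardA : (Fintype.card A : ℝ) = m + 1 := by simp [hA]
  let N : ℝ := ((2 * s + 1 : ℕ) : ℝ) ^ d
  let emp : (A ⊕ Fin M → V) → A → A → ℝ := fun z i i' =>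
    (∑ j : Fin M, |p (z (Sum.inl i)) (z (Sum.inr j)) - p (z (Sum.inl i')) (z (Sum.inr j))|) / M
  let bad1 : (A ⊕ Fin M → V) → Prop := fun z => ¬ RepOn d p (Set.range z)
  let bad2 : (A ⊕ Fin M → V) → Prop := fun z => ∃ i : A × A,
    1 / (s:ℝ) < rho p (z (Sum.inl i.1)) (z (Sum.inl i.2)) ∧ emp z i.1 i.2 ≤ 1 / (2 * s : ℝ)
  -- pointwise bound
  have hpt : ∀ z : A ⊕ Fin M → V, ∑ i : A, ind (Iso p (1 / (s:ℝ)) (z ∘ Sum.inl) i)
      ≤ N + (m + 1) * (ind (bad1 z) + ind (bad2 z)) := by
    intro z
    have hN0 : 0 ≤ N := by positivity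
    by_cases hb : bad1 z ∨ bad2 z
    · have h2 : 1 ≤ ind (bad1 z) + ind (bad2 z) := by
        rw [← ind_true hb]; exact ind_or_le _ _
      calc ∑ i : A, ind (Iso p (1 / (s:ℝ)) (z ∘ Sum.inl) i) ≤ ∑ _i : A, (1:ℝ) :=
            Finset.sum_le_sum fun i _ => ind_le_one _
        _ = m + 1 := by simp [hA]
        _ ≤ (m + 1) * (ind (bad1 z) + ind (bad2 z)) := by
            have : (0:ℝ) ≤ m + 1 := by positivity
            nlinarith
        _ ≤ _ := by linarith
    · push Not at hb
      obtain ⟨hb1, hb2⟩ := hb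
      have hrep : RepOn d p (Set.range z) := by
        by_contra hcon; exact hb1 hcon
      let I : Finset A := univ.filter (fun i => Iso p (1 / (s:ℝ)) (z ∘ Sum.inl) i)
      have hI : I.card ≤ (2 * s + 1) ^ d := by
        apply packing hd (K := 2 * s) (by omega) hM hrep (fun j => z (Sum.inr j))
          (fun j => ⟨_, rfl⟩) (fun i => z (Sum.inl i)) I (fun i _ => ⟨_, rfl⟩)
        intro i hi i' hi' hne
        have hiso : Iso p (1 / (s:ℝ)) (z ∘ Sum.inl) i := (mem_filter.mp hi).2
        have hd1 := hiso i' hne.symm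
        by_contra hcon
        push Not at hcon
        apply hb2
        refine ⟨(i, i'), hd1, ?_⟩
        push_cast at hcon
        exact hcon
      have hsum : ∑ i : A, ind (Iso p (1 / (s:ℝ)) (z ∘ Sum.inl) i) = (I.card : ℝ) := by
        rw [Finset.card_filter]
        push_cast
        apply Finset.sum_congr rfl
        intro i _
        simp only [ind]
      rw [hsum]
      have : (I.card : ℝ) ≤ N := by
        have : (I.card : ℝ) ≤ (((2 * s + 1) ^ d : ℕ) : ℝ) := by exact_mod_cast hI
        simpa [N] using this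
      have h3 : 0 ≤ (m + 1 : ℝ) * (ind (bad1 z) + ind (bad2 z)) := by
        apply mul_nonneg (by positivity)
        exact add_nonneg (ind_nonneg _) (ind_nonneg _)
      linarith
  -- expectation of bad2
  have hbad2 : E (fun z => ind (bad2 z)) ≤ (m + 1) ^ 2 * (4 * s ^ 2 / M) := by
    have step1 : E (fun z => ind (bad2 z)) ≤ ∑ i : A × A, E (fun z : A ⊕ Fin M → V =>
        ind (1 / (s:ℝ) < rho p (z (Sum.inl i.1)) (z (Sum.inl i.2)) ∧
          emp z i.1 i.2 ≤ 1 / (2 * s : ℝ))) := by
      rw [← E_finset_sum]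
      exact E_mono fun z => ind_exists_le _
    have step2 : ∀ i : A × A, E (fun z : A ⊕ Fin M → V =>
        ind (1 / (s:ℝ) < rho p (z (Sum.inl i.1)) (z (Sum.inl i.2)) ∧
          emp z i.1 i.2 ≤ 1 / (2 * s : ℝ))) ≤ 4 * s ^ 2 / M := by
      intro i
      let e := Equiv.sumArrowEquivProdArrow A (Fin M) V
      have h3 : E (fun z : A ⊕ Fin M → V =>
        ind (1 / (s:ℝ) < rho p (z (Sum.inl i.1)) (z (Sum.inl i.2)) ∧
          emp z i.1 i.2 ≤ 1 / (2 * s : ℝ))) = E (fun w : (A → V) × (Fin M → V) =>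
          ind (1 / (s:ℝ) < rho p (w.1 i.1) (w.1 i.2) ∧
            (∑ j : Fin M, |p (w.1 i.1) (w.2 j) - p (w.1 i.2) (w.2 j)|) / M ≤ 1 / (2 * s : ℝ))) :=
        E_equiv e (fun w : (A → V) × (Fin M → V) =>
          ind (1 / (s:ℝ) < rho p (w.1 i.1) (w.1 i.2) ∧
            (∑ j : Fin M, |p (w.1 i.1) (w.2 j) - p (w.1 i.2) (w.2 j)|) / M ≤ 1 / (2 * s : ℝ)))
      rw [h3, E_prod]
      have h4 : ∀ u : A → V, E (fun y : Fin M → V =>
          ind (1 / (s:ℝ) < rho p (u i.1) (u i.2) ∧
            (∑ j : Fin M, |p (u i.1) (y j) - p (u i.2) (y j)|) / M ≤ 1 / (2 * s : ℝ)))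
          ≤ 4 * s ^ 2 / M := by
        intro u
        have hcheb := chebyshev hM (fun y => |p (u i.1) y - p (u i.2) y|)
          (fun y => abs_nonneg _) (fun y => by
            rw [abs_le]
            constructor <;> linarith [h0 (u i.1) y, h1 (u i.1) y, h0 (u i.2) y, h1 (u i.2) y])
          (t := 1 / (2 * s : ℝ)) (by positivity)
        calc _ ≤ E (fun y : Fin M → V => ind (1 / (2 * s : ℝ) ≤
              |(∑ j, |p (u i.1) (y j) - p (u i.2) (y j)|) / M
                - E (fun y => |p (u i.1) y - p (u i.2) y|)|)) := by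
              apply E_mono
              intro y
              apply ind_mono
              rintro ⟨ha, hb⟩
              have hr : rho p (u i.1) (u i.2) = E (fun y => |p (u i.1) y - p (u i.2) y|) := rfl
              rw [← hr]
              rw [abs_sub_comm]
              refine le_trans ?_ (le_abs_self _)
              have : 1 / (s:ℝ) = 1 / (2 * s : ℝ) + 1 / (2 * s : ℝ) := by field_simp; norm_num
              linarith
          _ ≤ _ := hcheb
          _ = 4 * s ^ 2 / M := by field_simp; norm_num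
      calc _ ≤ E (fun _ : A → V => 4 * (s:ℝ) ^ 2 / M) := E_mono h4
        _ = _ := E_const _
    calc E (fun z => ind (bad2 z)) ≤ _ := step1
      _ ≤ ∑ _i : A × A, 4 * (s:ℝ) ^ 2 / M := Finset.sum_le_sum fun i _ => step2 i
      _ = (m + 1) ^ 2 * (4 * s ^ 2 / M) := by
          rw [sum_const, card_univ, Fintype.card_prod, nsmul_eq_mul]
          push_cast
          rw [hcardA]
          ring
  -- total expectation
  have hE : (m + 1 : ℝ) * E (fun u : A → V => ind (Iso p (1 / (s:ℝ)) u none))
      ≤ N + (m + 1) * (η + (m + 1) ^ 2 * (4 * s ^ 2 / M)) := by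
    have hL : E (fun z : A ⊕ Fin M → V => ∑ i : A, ind (Iso p (1 / (s:ℝ)) (z ∘ Sum.inl) i))
        = (m + 1 : ℝ) * E (fun u : A → V => ind (Iso p (1 / (s:ℝ)) u none)) := by
      rw [E_finset_sum]
      have : ∀ i : A, E (fun z : A ⊕ Fin M → V => ind (Iso p (1 / (s:ℝ)) (z ∘ Sum.inl) i))
          = E (fun u : A → V => ind (Iso p (1 / (s:ℝ)) u none)) := by
        intro i
        rw [E_marginal (Sum.inl : A → A ⊕ Fin M) Sum.inl_injective
          (fun u : A → V => ind (Iso p (1 / (s:ℝ)) u i))]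
        exact E_iso_eq p _ i none
      simp_rw [this]
      rw [sum_const, card_univ, nsmul_eq_mul, hcardA]
    rw [← hL]
    calc _ ≤ E (fun z => N + (m + 1) * (ind (bad1 z) + ind (bad2 z))) := E_mono hpt
      _ = N + (m + 1) * (E (fun z => ind (bad1 z)) + E (fun z => ind (bad2 z))) := by
          rw [E_add, E_const, E_mul_left, E_add]
      _ ≤ _ := by
          have : (0:ℝ) ≤ m + 1 := by positivity
          have h5 : E (fun z => ind (bad1 z)) ≤ η := hη
          nlinarith
  have hE2 : E (fun u : A → V => ind (Iso p (1 / (s:ℝ)) u none))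
      ≤ N / (m + 1) + η + (m + 1) ^ 2 * (4 * s ^ 2 / M) := by
    have hm : (0:ℝ) < m + 1 := by positivity
    have h6 : E (fun u : A → V => ind (Iso p (1 / (s:ℝ)) u none))
        ≤ (N + (m + 1) * (η + (m + 1) ^ 2 * (4 * s ^ 2 / M))) / (m + 1) := by
      rw [le_div_iff₀ hm]; linarith
    calc _ ≤ _ := h6
      _ = _ := by field_simp; ring
  -- split off coordinate none
  have hsplit : E (fun u : A → V => ind (Iso p (1 / (s:ℝ)) u none))
      = E (fun x' : Fin m → V => E (fun x : V => ind (∀ j, 1 / (s:ℝ) < rho p x (x' j)))) := by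
    let e : (A → V) ≃ V × (Fin m → V) := Equiv.piOptionEquivProd
    let e' : (A → V) ≃ (Fin m → V) × V := e.trans (Equiv.prodComm _ _)
    rw [← E_prod (fun w : (Fin m → V) × V => ind (∀ j, 1 / (s:ℝ) < rho p w.2 (w.1 j))),
      ← E_equiv e' (fun w : (Fin m → V) × V => ind (∀ j, 1 / (s:ℝ) < rho p w.2 (w.1 j)))]
    congr 1
    funext u
    congr 1
    apply propext
    unfold Iso
    constructor
    · intro h j
      exact h (some j) (by simp)
    · intro h j hj
      cases j with
      | none => exact absurd rfl hj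
      | some j => exact h j
  rw [hsplit] at hE2
  obtain ⟨x', hx'⟩ := exists_le_of_E_le hE2
  exact ⟨x', hx'⟩

end

end Pool.Agent.Lib.MP4530
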