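import Mathlib

set_option autoImplicit false

/-!
# Bradley-Terry dimension is easily L1-testable

Definitions: stochastic tournaments, Bradley-Terry dimension, randomized adaptive query
algorithms and (easy) L1-testability, as in the problem.
-/

namespace Pool.Agent.Lib.MP4530.BTDim

open Finset BigOperators

/-! ## Stochastic tournaments -/

/-- A tournament on `n` vertices: every edge of the complete graph is oriented in exactly one way.
`arc x y` says that the edge `xy` is oriented from `x` to `y`. -/
structure Tournament (n : ℕ) where
  arc : Fin n → Fin n → Prop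
  irrefl : ∀ x, ¬ arc x x
  oriented : ∀ x y, x ≠ y → (arc x y ↔ ¬ arc y x)

/-- The directed edges of a tournament. -/
abbrev Tournament.Edge {n : ℕ} (K : Tournament n) : Type :=
  {e : Fin n × Fin n // K.arc e.1 e.2}

noncomputable instance {n : ℕ} (K : Tournament n) : Fintype K.Edge := Fintype.ofFinite _

/-- Weights on the directed edges, with values in `[0,1]`. The pair `(K, w)` is a
stochastic tournament. -/
abbrev Tournament.Weights {n : ℕ} (K : Tournament n) : Type := K.Edge → unitInterval

open Classical in
/-- The matrix entry `p_{xy}` of a stochastic tournament, for distinct `x, y`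
(the diagonal carries no information and is never queried). -/
noncomputable def prob {n : ℕ} (K : Tournament n) (w : K.Weights) (x y : Fin n) : ℝ :=
  if h : K.arc x y then (w ⟨(x, y), h⟩ : ℝ)
  else if h : K.arc y x then 1 - (w ⟨(y, x), h⟩ : ℝ)
  else 0

/-- A property of stochastic tournaments. -/
abbrev Property : Type := ∀ (n : ℕ) (K : Tournament n), K.Weights → Prop

/-- There are `a_1, ..., a_d : V → ℝ_{>0}` with
`p_{xy} = (1/d) * ∑_i a_i(x) / (a_i(x) + a_i(y))` for all distinct `x, y`. -/
def HasBTRep (d : ℕ) {n : ℕ} (K : Tournament n) (w : K.Weights) : Prop :=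
  ∃ a : Fin d → Fin n → ℝ, (∀ i x, 0 < a i x) ∧
    ∀ x y, x ≠ y → prob K w x y = (1 / (d : ℝ)) * ∑ i, a i x / (a i x + a i y)

/-- Bradley-Terry dimension exactly `d` (used for `d ≥ 2`). -/
def HasBTDim (d : ℕ) : Property := fun _ K w => HasBTRep d K w ∧ ¬ HasBTRep (d - 1) K w

/-! ## Query algorithms and testers -/

/-- Deterministic adaptive query algorithms on inputs with `n` vertices: either stop with an
answer, or query a pair of distinct vertices and continue depending on the real number received. -/
inductive QueryAlg (n : ℕ) : Type
  | output (b : Bool) : QueryAlg n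
  | query (x y : Fin n) (h : x ≠ y) (next : ℝ → QueryAlg n) : QueryAlg n

/-- The answer (`true` = accept) of an algorithm on the input with matrix `P`. -/
def QueryAlg.run {n : ℕ} (P : Fin n → Fin n → ℝ) : QueryAlg n → Bool
  | .output b => b
  | .query x y _ next => (next (P x y)).run P

/-- The number of queries an algorithm makes on the input with matrix `P`. -/
def QueryAlg.cost {n : ℕ} (P : Fin n → Fin n → ℝ) : QueryAlg n → ℕ
  | .output _ => 0
  | .query x y _ next => (next (P x y)).cost P + 1

/-- Randomized query algorithms: probability distributions on deterministic ones. -/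
abbrev RandAlg (n : ℕ) : Type := PMF (QueryAlg n)

/-- Probability that the randomized algorithm `A` answers `b` on the input `(K, w)`. -/
noncomputable def ansProb {n : ℕ} (A : RandAlg n) (K : Tournament n) (w : K.Weights) (b : Bool) :
    ENNReal :=
  (A.map (fun D => D.run (prob K w))) b

/-- `A` makes at most `q` queries, on every input and for every outcome of its random choices. -/
def QueriesAtMost {n : ℕ} (A : RandAlg n) (q : ℝ) : Prop :=
  ∀ D ∈ A.support, ∀ (K : Tournament n) (w : K.Weights), (D.cost (prob K w) : ℝ) ≤ q

/-- `(K, w)` is `ε`-far from the property: every `w'` with `(K, w')` in the property satisfies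
`∑_e |w(e) - w'(e)| ≥ ε n ^ 2`. -/
def IsFar (ε : ℝ) (Pr : Property) (n : ℕ) (K : Tournament n) (w : K.Weights) : Prop :=
  ∀ w' : K.Weights, Pr n K w' → ε * (n : ℝ) ^ 2 ≤ ∑ e : K.Edge, |(w e : ℝ) - (w' e : ℝ)|

/-- `A` is an `ε`-tester (for inputs with `n` vertices): it accepts inputs in the property with
probability at least `2/3` and rejects inputs `ε`-far from it with probability at least `2/3`. -/
def IsTester (ε : ℝ) (Pr : Property) (n : ℕ) (A : RandAlg n) : Prop :=
  (∀ (K : Tournament n) (w : K.Weights), Pr n K w → 2 / 3 ≤ ansProb A K w true) ∧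
  (∀ (K : Tournament n) (w : K.Weights), IsFar ε Pr n K w → 2 / 3 ≤ ansProb A K w false)

/-- `A` has one-sided error: it accepts every input in the property with probability `1`. -/
def OneSided (Pr : Property) (n : ℕ) (A : RandAlg n) : Prop :=
  ∀ (K : Tournament n) (w : K.Weights), Pr n K w → ansProb A K w true = 1

/-- `L_1`-testable: for every `ε > 0` there are `ε`-testers whose number of queries is bounded
independently of `n`. -/
def L1Testable (Pr : Property) : Prop :=
  ∀ ε : ℝ, 0 < ε → ∃ q : ℝ, ∀ n : ℕ, ∃ A : RandAlg n, QueriesAtMost A q ∧ IsTester ε Pr n A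

/-- Easily `L_1`-testable: for every `ε > 0` there are one-sided `ε`-testers whose number of
queries is bounded, independently of `n`, by a fixed polynomial in `1/ε`. -/
def EasilyL1Testable (Pr : Property) : Prop :=
  ∃ Q : Polynomial ℝ, ∀ ε : ℝ, 0 < ε → ∀ n : ℕ, ∃ A : RandAlg n,
    QueriesAtMost A (Q.eval (1 / ε)) ∧ IsTester ε Pr n A ∧ OneSided Pr n A

end Pool.Agent.Lib.MP4530.BTDim
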