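import Pool.Agent.Lib.MP_4530c2_lc.Main
import Pool.Agent.Lib.MP_4530c2_lc.Defs

set_option autoImplicit false
set_option linter.unusedSectionVars false

/-! The testers and their analysis. -/

namespace Pool.Agent.Lib.MP4530.BTDim

open Finset BigOperators

/-! ## Basic facts on matrices -/

lemma prob_mem {n : ℕ} (K : Tournament n) (w : K.Weights) (x y : Fin n) :
    0 ≤ prob K w x y ∧ prob K w x y ≤ 1 := by
  unfold prob
  split_ifs with h1 h2
  · exact ⟨(w _).2.1, (w _).2.2⟩
  · have := (w ⟨(y, x), h2⟩).2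
    constructor <;> linarith [this.1, this.2]
  · constructor <;> norm_num

lemma prob_add {n : ℕ} (K : Tournament n) (w : K.Weights) (x y : Fin n) (h : x ≠ y) :
    prob K w x y + prob K w y x = 1 := by
  unfold prob
  by_cases hxy : K.arc x y
  · have hyx : ¬ K.arc y x := (K.oriented x y h).mp hxy
    rw [dif_pos hxy, dif_neg hyx, dif_pos hxy]; ring
  · have hyx : K.arc y x := by
      by_contra hcon
      exact hxy ((K.oriented x y h).mpr hcon)
    rw [dif_neg hxy, dif_pos hyx, dif_pos hyx]; ring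

/-- the matrix with diagonal entries `1/2` -/
noncomputable def full {n : ℕ} (P : Fin n → Fin n → ℝ) (x y : Fin n) : ℝ := by
  classical exact if x = y then 1 / 2 else P x y

lemma full_of_ne {n : ℕ} (P : Fin n → Fin n → ℝ) {x y : Fin n} (h : x ≠ y) :
    full P x y = P x y := by simp [full, h]

lemma full_self {n : ℕ} (P : Fin n → Fin n → ℝ) (x : Fin n) : full P x x = 1 / 2 := by
  simp [full]

open Pool.Agent.Lib.MP4530

lemma F_self {d : ℕ} (hd : 0 < d) (u : Fin d → ℝ) (hu : ∀ i, 0 < u i) : F u u = 1 / 2 := by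
  have hdr : (0:ℝ) < d := by exact_mod_cast hd
  unfold F
  have : ∀ i, u i / (u i + u i) = 1 / 2 := by
    intro i
    have := hu i
    field_simp; norm_num
  simp_rw [this]
  simp only [sum_const, card_univ, Fintype.card_fin, nsmul_eq_mul]
  field_simp

/-- the representation property in terms of the matrix -/
def MatRep (d : ℕ) {n : ℕ} (P : Fin n → Fin n → ℝ) : Prop :=
  ∃ a : Fin d → Fin n → ℝ, (∀ i x, 0 < a i x) ∧
    ∀ x y, x ≠ y → P x y = (1 / (d : ℝ)) * ∑ i, a i x / (a i x + a i y)

lemma matRep_iff_repOff (d : ℕ) {n : ℕ} (P : Fin n → Fin n → ℝ) : MatRep d P ↔ RepOff d P := by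
  constructor
  · rintro ⟨a, ha, h⟩
    exact ⟨fun x i => a i x, fun x i => ha i x, fun x y hxy => h x y hxy⟩
  · rintro ⟨a, ha, h⟩
    exact ⟨fun i x => a x i, fun i x => ha x i, fun x y hxy => h x y hxy⟩

lemma MatRep.repOn {d : ℕ} (hd : 0 < d) {n : ℕ} {P : Fin n → Fin n → ℝ} (h : MatRep d P)
    (S : Set (Fin n)) : RepOn d (full P) S := by
  obtain ⟨a, ha, hp⟩ := h
  refine ⟨fun x i => a i x, fun x i => ha i x, ?_⟩
  intro x _ y _
  by_cases hxy : x = y
  · subst hxy
    rw [full_self, F_self hd _ (fun i => ha i x)]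
  · rw [full_of_ne P hxy, hp x y hxy]; rfl

/-! ## Nonadaptive algorithms -/

/-- table of answers after querying a list of pairs -/
noncomputable def table {n : ℕ} (P : Fin n → Fin n → ℝ) :
    List {e : Fin n × Fin n // e.1 ≠ e.2} → (Fin n → Fin n → ℝ) → (Fin n → Fin n → ℝ)
  | [], known => known
  | e :: l, known => table P l (by
      classical exact fun x y => if (x, y) = e.1 then P e.1.1 e.1.2 else known x y)

/-- query all pairs of a list, then decide -/
noncomputable def ask {n : ℕ} (dec : (Fin n → Fin n → ℝ) → Bool) :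
    List {e : Fin n × Fin n // e.1 ≠ e.2} → (Fin n → Fin n → ℝ) → QueryAlg n
  | [], known => .output (dec known)
  | e :: l, known => .query e.1.1 e.1.2 e.2 (fun r => ask dec l (by
      classical exact fun x y => if (x, y) = e.1 then r else known x y))

lemma run_ask {n : ℕ} (dec : (Fin n → Fin n → ℝ) → Bool) (P : Fin n → Fin n → ℝ)
    (l : List {e : Fin n × Fin n // e.1 ≠ e.2}) (known : Fin n → Fin n → ℝ) :
    (ask dec l known).run P = dec (table P l known) := by
  induction l generalizing known with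
  | nil => rfl
  | cons e l ih =>
    simp only [ask, QueryAlg.run, table]
    exact ih _

lemma cost_ask {n : ℕ} (dec : (Fin n → Fin n → ℝ) → Bool) (P : Fin n → Fin n → ℝ)
    (l : List {e : Fin n × Fin n // e.1 ≠ e.2}) (known : Fin n → Fin n → ℝ) :
    (ask dec l known).cost P = l.length := by
  induction l generalizing known with
  | nil => rfl
  | cons e l ih =>
    simp only [ask, QueryAlg.cost, List.length_cons]
    rw [ih]

lemma table_of_known {n : ℕ} (P : Fin n → Fin n → ℝ)
    (l : List {e : Fin n × Fin n // e.1 ≠ e.2}) (known : Fin n → Fin n → ℝ) (x y : Fin n)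
    (h : known x y = P x y) : table P l known x y = P x y := by
  induction l generalizing known with
  | nil => exact h
  | cons e l ih =>
    simp only [table]
    apply ih
    by_cases hxy : (x, y) = e.1
    · rw [if_pos hxy, ← hxy]
    · rw [if_neg hxy]; exact h

lemma table_of_mem {n : ℕ} (P : Fin n → Fin n → ℝ)
    (l : List {e : Fin n × Fin n // e.1 ≠ e.2}) (known : Fin n → Fin n → ℝ) (x y : Fin n)
    (hxy : x ≠ y) (hmem : (⟨(x, y), hxy⟩ : {e : Fin n × Fin n // e.1 ≠ e.2}) ∈ l) :
    table P l known x y = P x y := by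
  induction l generalizing known with
  | nil => exact absurd hmem (by simp)
  | cons e l ih =>
    rcases List.mem_cons.mp hmem with h | h
    · simp only [table]
      apply table_of_known
      subst h
      simp
    · simp only [table]
      exact ih _ h

/-- list of all pairs of distinct vertices given by two index maps -/
noncomputable def pairs {n : ℕ} {I : Type} [Fintype I] (f g : I → Fin n) :
    List {e : Fin n × Fin n // e.1 ≠ e.2} := by
  classical
  exact (univ : Finset I).toList.filterMap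
    (fun i => if h : f i ≠ g i then some ⟨(f i, g i), h⟩ else none)

lemma pairs_length {n : ℕ} {I : Type} [Fintype I] (f g : I → Fin n) :
    (pairs f g).length ≤ Fintype.card I := by
  unfold pairs
  refine le_trans (List.length_filterMap_le _ _) ?_
  rw [Finset.length_toList, Finset.card_univ]

lemma mem_pairs {n : ℕ} {I : Type} [Fintype I] (f g : I → Fin n) (i : I) (h : f i ≠ g i) :
    (⟨(f i, g i), h⟩ : {e : Fin n × Fin n // e.1 ≠ e.2}) ∈ pairs f g := by
  unfold pairs
  rw [List.mem_filterMap]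
  exact ⟨i, by simp, by rw [dif_pos h]⟩

/-! ## The exact algorithm for small `n` -/

/-- query everything and decide exactly -/
noncomputable def exactAlg (d n : ℕ) : QueryAlg n := by
  classical
  exact ask (fun T => decide (MatRep d T ∧ ¬ MatRep (d - 1) T))
    (pairs (I := Fin n × Fin n) (fun i => i.1) (fun i => i.2)) (fun _ _ => 0)

lemma exactAlg_run (d n : ℕ) (K : Tournament n) (w : K.Weights) :
    (exactAlg d n).run (prob K w) = true ↔ HasBTDim d n K w := by
  classical
  unfold exactAlg
  rw [run_ask, decide_eq_true_iff]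
  have htab : ∀ x y, x ≠ y → table (prob K w)
      (pairs (I := Fin n × Fin n) (fun i => i.1) (fun i => i.2)) (fun _ _ => 0) x y
      = prob K w x y := by
    intro x y hxy
    apply table_of_mem _ _ _ _ _ hxy
    exact mem_pairs (I := Fin n × Fin n) (fun i => i.1) (fun i => i.2) (x, y) hxy
  have hrep : ∀ e : ℕ, MatRep e (table (prob K w)
      (pairs (I := Fin n × Fin n) (fun i => i.1) (fun i => i.2)) (fun _ _ => 0))
      ↔ HasBTRep e K w := by
    intro e
    unfold MatRep HasBTRep
    constructor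
    · rintro ⟨a, ha, h⟩
      exact ⟨a, ha, fun x y hxy => by rw [← h x y hxy, htab x y hxy]⟩
    · rintro ⟨a, ha, h⟩
      exact ⟨a, ha, fun x y hxy => by rw [htab x y hxy, h x y hxy]⟩
  rw [hrep, hrep]
  rfl

lemma exactAlg_cost (d n : ℕ) (P : Fin n → Fin n → ℝ) :
    (exactAlg d n).cost P ≤ n ^ 2 := by
  classical
  unfold exactAlg
  rw [cost_ask]
  refine le_trans (pairs_length _ _) ?_
  simp [sq]

/-! ## The sampling algorithm for large `n` -/

/-- for the sample `z`, query all pairs inside each block and accept iff every block is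
representable -/
noncomputable def sampleAlg (d : ℕ) {n L q : ℕ} (z : Fin L → Fin q → Fin n) : QueryAlg n := by
  classical
  exact ask (fun T => decide (∀ l, RepOn d (full T) (Set.range (z l))))
    (pairs (I := Fin L × Fin q × Fin q) (fun i => z i.1 i.2.1) (fun i => z i.1 i.2.2))
    (fun _ _ => 0)

lemma sampleAlg_run (d : ℕ) {n L q : ℕ} (z : Fin L → Fin q → Fin n) (P : Fin n → Fin n → ℝ) :
    (sampleAlg d z).run P = true ↔ ∀ l, RepOn d (full P) (Set.range (z l)) := by
  classical
  unfold sampleAlg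
  rw [run_ask, decide_eq_true_iff]
  apply forall_congr'
  intro l
  have htab : ∀ x ∈ Set.range (z l), ∀ y ∈ Set.range (z l), full (table P
      (pairs (I := Fin L × Fin q × Fin q) (fun i => z i.1 i.2.1) (fun i => z i.1 i.2.2))
      (fun _ _ => 0)) x y = full P x y := by
    rintro x ⟨i, rfl⟩ y ⟨j, rfl⟩
    by_cases hxy : z l i = z l j
    · rw [hxy, full_self, full_self]
    · rw [full_of_ne _ hxy, full_of_ne _ hxy]
      apply table_of_mem _ _ _ _ _ hxy
      exact mem_pairs (I := Fin L × Fin q × Fin q) (fun i => z i.1 i.2.1)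
        (fun i => z i.1 i.2.2) (l, i, j) hxy
  unfold RepOn
  constructor
  · rintro ⟨a, ha, h⟩
    exact ⟨a, ha, fun x hx y hy => by rw [← h x hx y hy, htab x hx y hy]⟩
  · rintro ⟨a, ha, h⟩
    exact ⟨a, ha, fun x hx y hy => by rw [htab x hx y hy, h x hx y hy]⟩

lemma sampleAlg_cost (d : ℕ) {n L q : ℕ} (z : Fin L → Fin q → Fin n) (P : Fin n → Fin n → ℝ) :
    (sampleAlg d z).cost P ≤ L * (q * q) := by
  classical
  unfold sampleAlg
  rw [cost_ask]
  refine le_trans (pairs_length _ _) ?_
  simp

/-- the uniform distribution on the sampling algorithms -/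
noncomputable def sampler (d n L q : ℕ) [Nonempty (Fin n)] : RandAlg n :=
  (PMF.uniformOfFintype (Fin L → Fin q → Fin n)).map (fun z => sampleAlg d z)

lemma sampler_cost (d n L q : ℕ) [Nonempty (Fin n)] :
    QueriesAtMost (sampler d n L q) ((L * (q * q) : ℕ) : ℝ) := by
  intro D hD K w
  unfold sampler at hD
  rw [PMF.support_map] at hD
  obtain ⟨z, _, rfl⟩ := hD
  exact_mod_cast sampleAlg_cost d z (prob K w)

lemma sampler_ansProb (d n L q : ℕ) [Nonempty (Fin n)] (K : Tournament n) (w : K.Weights)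
    (b : Bool) : ansProb (sampler d n L q) K w b =
      (PMF.uniformOfFintype (Fin L → Fin q → Fin n)).toOuterMeasure
        {z | (sampleAlg d z).run (prob K w) = b} := by
  unfold ansProb sampler
  rw [PMF.map_comp, ← PMF.toOuterMeasure_apply_singleton, PMF.toOuterMeasure_map_apply]
  rfl

lemma sampler_oneSided {d : ℕ} (hd : 0 < d) (n L q : ℕ) [Nonempty (Fin n)] :
    OneSided (HasBTDim d) n (sampler d n L q) := by
  intro K w h
  rw [sampler_ansProb, PMF.toOuterMeasure_apply_eq_one_iff]
  intro z _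
  rw [Set.mem_ofPred_eq, sampleAlg_run]
  intro l
  have hm : MatRep d (prob K w) := h.1
  exact hm.repOn hd _

lemma E_forall_pow {W : Type*} [Fintype W] (L : ℕ) (G : W → Prop) :
    E (fun z : Fin L → W => ind (∀ l, G (z l))) = (E (fun x => ind (G x))) ^ L := by
  classical
  have h1 : ∀ z : Fin L → W, ind (∀ l, G (z l)) = ∏ l, ind (G (z l)) := by
    intro z
    by_cases h : ∀ l, G (z l)
    · rw [ind_true h]
      exact (Finset.prod_eq_one fun l _ => ind_true (h l)).symm
    · rw [ind_false h]
      push Not at h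
      obtain ⟨l, hl⟩ := h
      exact (Finset.prod_eq_zero (mem_univ l) (ind_false hl)).symm
  simp_rw [h1]
  unfold E
  rw [div_pow, Fintype.sum_pow]
  congr 1
  simp

lemma F_add {d : ℕ} (hd : 0 < d) (u v : Fin d → ℝ) (hu : ∀ i, 0 < u i) (hv : ∀ i, 0 < v i) :
    F u v + F v u = 1 := by
  have hdr : (0:ℝ) < d := by exact_mod_cast hd
  unfold F
  rw [← mul_add, ← Finset.sum_add_distrib]
  have : ∀ i, u i / (u i + v i) + v i / (v i + u i) = 1 := by
    intro i
    have h1 := hu i; have h2 := hv i
    rw [add_comm (v i) (u i)]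
    field_simp
  simp_rw [this]
  simp only [sum_const, card_univ, Fintype.card_fin, nsmul_eq_mul]
  field_simp

lemma F_mem {d : ℕ} (hd : 0 < d) (u v : Fin d → ℝ) (hu : ∀ i, 0 < u i) (hv : ∀ i, 0 < v i) :
    F u v ∈ unitInterval := by
  have h1 := F_add hd u v hu hv
  have hnn : ∀ u v : Fin d → ℝ, (∀ i, 0 < u i) → (∀ i, 0 < v i) → 0 ≤ F u v := by
    intro u v hu hv
    unfold F
    exact mul_nonneg (by positivity) (Finset.sum_nonneg fun i _ => bt_nonneg (hu i) (hv i))
  exact ⟨hnn u v hu hv, by linarith [hnn v u hv hu]⟩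

/-- If a far input were accepted often, there would be a close element of the property. -/
lemma not_good_of_far {n d s : ℕ} {ε : ℝ} (hd : 2 ≤ d) (hs : 2 ≤ s)
    (hse : 350 / ε ≤ s) (hε : 0 < ε) (hn : nn d s ≤ n) (K : Tournament n) (w : K.Weights)
    (hfar : IsFar ε (HasBTDim d) n K w) :
    1 / (3 * s : ℝ) < E (fun z : Fin (QQ d s) → Fin n =>
      ind (¬ RepOn d (full (prob K w)) (Set.range z))) := by
  classical
  by_contra hcon
  push Not at hcon
  have hsr : (0:ℝ) < s := by exact_mod_cast (by omega : 0 < s)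
  have hd0 : 0 < d := by omega
  have hnpos : 0 < n := by
    have : 0 < s * (d + 1) := by positivity
    unfold nn at hn
    omega
  have hnr : (0:ℝ) < n := by exact_mod_cast hnpos
  have : Nonempty (Fin n) := ⟨⟨0, hnpos⟩⟩
  obtain ⟨a, ha, hnot, hclose⟩ := close_of_good hd hs hn (full (prob K w))
    (fun x y => by
      by_cases h : x = y
      · rw [h, full_self]; norm_num
      · rw [full_of_ne _ h]; exact (prob_mem K w x y).1)
    (fun x y => by
      by_cases h : x = y
      · rw [h, full_self]; norm_num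
      · rw [full_of_ne _ h]; exact (prob_mem K w x y).2)
    (fun x y => by
      by_cases h : x = y
      · rw [h, full_self]; norm_num
      · rw [full_of_ne _ h, full_of_ne _ (Ne.symm h)]; exact prob_add K w x y h)
    hcon
  let w' : K.Weights := fun e => ⟨F (a e.1.1) (a e.1.2), F_mem hd0 _ _ (ha _) (ha _)⟩
  have hw' : ∀ x y, x ≠ y → prob K w' x y = F (a x) (a y) := by
    intro x y hxy
    unfold prob
    by_cases h1 : K.arc x y
    · rw [dif_pos h1]
    · have h2 : K.arc y x := by
        by_contra hc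
        exact h1 ((K.oriented x y hxy).mpr hc)
      rw [dif_neg h1, dif_pos h2]
      have := F_add hd0 (a x) (a y) (ha x) (ha y)
      simp only [w']
      linarith
  have hdim : HasBTDim d n K w' := by
    constructor
    · refine ⟨fun i x => a x i, fun i x => ha x i, fun x y hxy => ?_⟩
      rw [hw' x y hxy]; rfl
    · intro hrep
      apply hnot
      obtain ⟨b, hb, hbp⟩ := hrep
      refine ⟨fun x i => b i x, fun x i => hb i x, fun x y hxy => ?_⟩
      exact (hw' x y hxy).symm.trans (hbp x y hxy)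
  have h1 := hfar w' hdim
  have h2 : ∑ e : K.Edge, |(w e : ℝ) - (w' e : ℝ)|
      ≤ ∑ e : Fin n × Fin n, |full (prob K w) e.1 e.2 - F (a e.1) (a e.2)| := by
    have h3 : ∀ e : K.Edge, |(w e : ℝ) - (w' e : ℝ)|
        = |full (prob K w) e.1.1 e.1.2 - F (a e.1.1) (a e.1.2)| := by
      intro e
      have hne : e.1.1 ≠ e.1.2 := by
        intro hc
        have := e.2
        rw [hc] at this
        exact K.irrefl _ this
      rw [full_of_ne _ hne]
      unfold prob
      rw [dif_pos e.2]
    simp_rw [h3]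
    calc ∑ e : K.Edge, |full (prob K w) e.1.1 e.1.2 - F (a e.1.1) (a e.1.2)|
        = ∑ e ∈ (univ : Finset K.Edge).map (Function.Embedding.subtype _),
          |full (prob K w) e.1 e.2 - F (a e.1) (a e.2)| := by
          rw [Finset.sum_map]; rfl
      _ ≤ _ := Finset.sum_le_sum_of_subset_of_nonneg (Finset.subset_univ _)
          (fun _ _ _ => abs_nonneg _)
  have h4 : ∑ e : Fin n × Fin n, |full (prob K w) e.1 e.2 - F (a e.1) (a e.2)|
      = (n:ℝ) ^ 2 * E (fun x => E (fun y => |full (prob K w) x y - F (a x) (a y)|)) := by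
    unfold E
    rw [Fintype.sum_prod_type, ← Finset.sum_div, Fintype.card_fin]
    field_simp
  have h5 : (175:ℝ) / s ≤ ε / 2 := by
    rw [div_le_iff₀ hε] at hse
    rw [div_le_div_iff₀ hsr (by norm_num)]
    linarith
  have h6 : (n:ℝ) ^ 2 * E (fun x => E (fun y => |full (prob K w) x y - F (a x) (a y)|))
      ≤ (n:ℝ) ^ 2 * (ε / 2) :=
    mul_le_mul_of_nonneg_left (le_trans hclose h5) (by positivity)
  have h7 : (0:ℝ) < (n:ℝ) ^ 2 * ε := by positivity
  nlinarith

lemma sampler_rejects {n d s : ℕ} {ε : ℝ} (hd : 2 ≤ d) (hs : 2 ≤ s)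
    (hse : 350 / ε ≤ s) (hε : 0 < ε) (hn : nn d s ≤ n) [Nonempty (Fin n)]
    (K : Tournament n) (w : K.Weights) (hfar : IsFar ε (HasBTDim d) n K w) :
    2 / 3 ≤ ansProb (sampler d n (6 * s) (QQ d s)) K w false := by
  classical
  have hsr : (0:ℝ) < s := by exact_mod_cast (by omega : 0 < s)
  have h1 := not_good_of_far hd hs hse hε hn K w hfar
  set G : (Fin (QQ d s) → Fin n) → Prop :=
    fun z => RepOn d (full (prob K w)) (Set.range z) with hG
  have h2 : E (fun z => ind (G z)) ≤ 1 - 1 / (3 * s : ℝ) := by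
    have h3 : E (fun z => ind (G z)) = 1 - E (fun z => ind (¬ G z)) := by
      have h4 : (fun z => ind (G z)) = fun z => 1 - ind (¬ G z) := by
        funext z
        by_cases h : G z
        · rw [ind_true h, ind_false (not_not.mpr h)]; ring
        · rw [ind_false h, ind_true h]; ring
      rw [h4, E_sub, E_const]
    rw [h3]
    linarith
  have h5 : E (fun z : Fin (6 * s) → Fin (QQ d s) → Fin n => ind (∀ l, G (z l))) ≤ 1 / 3 := by
    rw [E_forall_pow (W := Fin (QQ d s) → Fin n) (6 * s) G]
    have h6 : 0 ≤ E (fun z => ind (G z)) := E_nonneg fun z => ind_nonneg _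
    have h7 : E (fun z => ind (G z)) ≤ Real.exp (-(1 / (3 * s : ℝ))) := by
      refine le_trans h2 ?_
      have := Real.add_one_le_exp (-(1 / (3 * s : ℝ)))
      linarith
    calc (E (fun z => ind (G z))) ^ (6 * s) ≤ (Real.exp (-(1 / (3 * s : ℝ)))) ^ (6 * s) :=
          pow_le_pow_left₀ h6 h7 _
      _ = Real.exp (-2) := by
          rw [← Real.exp_nat_mul]
          congr 1
          push_cast
          field_simp
          norm_num
      _ ≤ 1 / 3 := by
          rw [Real.exp_neg, one_div]
          apply inv_anti₀ (by norm_num)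
          have := Real.add_one_le_exp (2:ℝ)
          linarith
  rw [sampler_ansProb, PMF.toOuterMeasure_uniformOfFintype_apply]
  set Z := Fin (6 * s) → Fin (QQ d s) → Fin n with hZ
  have hcard : (0:ℝ) < (Fintype.card Z : ℝ) := card_pos'
  have h8 : (Fintype.card {z : Z | (sampleAlg d z).run (prob K w) = false} : ℝ)
      = ∑ z : Z, ind (¬ ∀ l, G (z l)) := by
    rw [Fintype.card_subtype, Finset.card_filter]
    push_cast
    apply Finset.sum_congr rfl
    intro z _
    have h9 : z ∈ {z : Z | (sampleAlg d z).run (prob K w) = false} ↔ ¬ ∀ l, G (z l) := by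
      rw [Set.mem_ofPred_eq, ← sampleAlg_run, Bool.not_eq_true]
    by_cases h : ∀ l, G (z l)
    · rw [ind_false (not_not.mpr h), if_neg (fun hc => (h9.mp hc) h)]
    · rw [ind_true h, if_pos (h9.mpr h)]
  have h10 : ∑ z : Z, ind (¬ ∀ l, G (z l)) = (Fintype.card Z : ℝ) - ∑ z : Z, ind (∀ l, G (z l)) := by
    rw [eq_sub_iff_add_eq, ← Finset.sum_add_distrib]
    have : ∀ z : Z, ind (¬ ∀ l, G (z l)) + ind (∀ l, G (z l)) = 1 := by
      intro z
      by_cases h : ∀ l, G (z l)
      · rw [ind_true h, ind_false (not_not.mpr h)]; ring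
      · rw [ind_false h, ind_true h]; ring
    simp_rw [this]
    simp
  have h11 : ∑ z : Z, ind (∀ l, G (z l)) ≤ (Fintype.card Z : ℝ) / 3 := by
    have : E (fun z : Z => ind (∀ l, G (z l))) = (∑ z : Z, ind (∀ l, G (z l))) / Fintype.card Z :=
      rfl
    rw [this, div_le_iff₀ hcard] at h5
    linarith
  have h12 : (2:ℝ) / 3 ≤ (Fintype.card {z : Z | (sampleAlg d z).run (prob K w) = false} : ℝ)
      / (Fintype.card Z : ℝ) := by
    rw [le_div_iff₀ hcard, h8, h10]
    linarith
  have h13 : (2:ENNReal) / 3 = ENNReal.ofReal (2 / 3) := by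
    rw [ENNReal.ofReal_div_of_pos (by norm_num)]
    norm_num
  have h14 : ((Fintype.card {z : Z | (sampleAlg d z).run (prob K w) = false} : ℕ) : ENNReal)
      / ((Fintype.card Z : ℕ) : ENNReal) = ENNReal.ofReal
        ((Fintype.card {z : Z | (sampleAlg d z).run (prob K w) = false} : ℝ)
          / (Fintype.card Z : ℝ)) := by
    rw [ENNReal.ofReal_div_of_pos hcard, ENNReal.ofReal_natCast, ENNReal.ofReal_natCast]
  rw [h13, h14]
  exact ENNReal.ofReal_le_ofReal h12

/-- real version of the query bound -/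
noncomputable def GR (d : ℕ) (t : ℝ) : ℝ :=
  6 * t * (((3 * t) ^ (d + 1) + 1) + 12 * t ^ 3 * ((3 * t) ^ (d + 1) + 1) ^ 2
    + 43 * ((3 * t) ^ (d + 1)) ^ 3 * t ^ 2) ^ 2
  + (43 * ((3 * t) ^ (d + 1)) ^ 3 * t ^ 2 + t * (d + 1)) ^ 2

/-- polynomial version of the query bound -/
noncomputable def GP (d : ℕ) : Polynomial ℝ :=
  6 * Polynomial.X * (((3 * Polynomial.X) ^ (d + 1) + 1)
    + 12 * Polynomial.X ^ 3 * ((3 * Polynomial.X) ^ (d + 1) + 1) ^ 2
    + 43 * ((3 * Polynomial.X) ^ (d + 1)) ^ 3 * Polynomial.X ^ 2) ^ 2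
  + (43 * ((3 * Polynomial.X) ^ (d + 1)) ^ 3 * Polynomial.X ^ 2
    + Polynomial.X * (Polynomial.C (d:ℝ) + 1)) ^ 2

lemma GP_eval (d : ℕ) (t : ℝ) : (GP d).eval t = GR d t := by
  unfold GP GR
  simp [Polynomial.eval_add, Polynomial.eval_mul, Polynomial.eval_pow]

lemma GR_mono (d : ℕ) {t t' : ℝ} (h0 : 0 ≤ t) (h : t ≤ t') : GR d t ≤ GR d t' := by
  have h1 : 0 ≤ t' := h0.trans h
  unfold GR
  gcongr

lemma bound_sampler (d s : ℕ) : (((6 * s) * (QQ d s * QQ d s) : ℕ) : ℝ) ≤ GR d s := by
  unfold GR QQ MM qq mm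
  push_cast
  have : (0:ℝ) ≤ (43 * ((3 * (s:ℝ)) ^ (d + 1)) ^ 3 * (s:ℝ) ^ 2 + s * (d + 1)) ^ 2 := sq_nonneg _
  nlinarith [this]

lemma bound_exact (d s n : ℕ) (hn : n < nn d s) : ((n ^ 2 : ℕ) : ℝ) ≤ GR d s := by
  have h1 : n ^ 2 ≤ (nn d s) ^ 2 := Nat.pow_le_pow_left hn.le 2
  have h2 : ((n ^ 2 : ℕ) : ℝ) ≤ (((nn d s) ^ 2 : ℕ) : ℝ) := by exact_mod_cast h1
  refine le_trans h2 ?_
  unfold GR nn qq mm
  push_cast
  have : (0:ℝ) ≤ 6 * (s:ℝ) * (((3 * (s:ℝ)) ^ (d + 1) + 1)
    + 12 * (s:ℝ) ^ 3 * ((3 * (s:ℝ)) ^ (d + 1) + 1) ^ 2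
    + 43 * ((3 * (s:ℝ)) ^ (d + 1)) ^ 3 * (s:ℝ) ^ 2) ^ 2 := by positivity
  linarith

/-- For every fixed `d ≥ 2`, having Bradley-Terry dimension `d` is easily `L_1`-testable
(in particular `L_1`-testable). -/
theorem main (d : ℕ) (hd : 2 ≤ d) : EasilyL1Testable (HasBTDim d) := by
  classical
  refine ⟨(GP d).comp (Polynomial.C 350 * Polynomial.X + Polynomial.C 3), ?_⟩
  intro ε hε n
  set s : ℕ := ⌈350 / ε⌉₊ + 2 with hs
  have hs2 : 2 ≤ s := by omega
  have hse : 350 / ε ≤ s := by
    have := Nat.le_ceil (350 / ε)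
    rw [hs]; push_cast; linarith
  have hse' : (s:ℝ) ≤ 350 * (1 / ε) + 3 := by
    have := Nat.ceil_lt_add_one (show 0 ≤ 350 / ε by positivity)
    rw [hs]; push_cast
    have h2 : 350 * (1 / ε) = 350 / ε := by ring
    linarith
  have hQ : GR d s ≤ ((GP d).comp (Polynomial.C 350 * Polynomial.X + Polynomial.C 3)).eval (1 / ε) := by
    rw [Polynomial.eval_comp, GP_eval]
    apply GR_mono d (by positivity)
    simpa using hse'
  by_cases hn : n < nn d s
  · -- exact algorithm
    refine ⟨PMF.pure (exactAlg d n), ?_, ?_, ?_⟩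
    · intro D hD K w
      rw [PMF.support_pure, Set.mem_singleton_iff] at hD
      subst hD
      have h1 : (((exactAlg d n).cost (prob K w) : ℕ) : ℝ) ≤ ((n ^ 2 : ℕ) : ℝ) := by
        exact_mod_cast exactAlg_cost d n (prob K w)
      exact le_trans h1 (le_trans (bound_exact d s n hn) hQ)
    · constructor
      · intro K w h
        have h1 := (exactAlg_run d n K w).mpr h
        unfold ansProb
        rw [PMF.pure_map, h1, PMF.pure_apply_self]
        exact ENNReal.div_le_of_le_mul (by norm_num)
      · intro K w hfar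
        have h0 : ¬ HasBTDim d n K w := by
          intro h
          rcases Nat.eq_zero_or_pos n with h2 | h2
          · subst h2
            exact h.2 ⟨fun _ _ => 1, fun _ _ => one_pos, fun x => x.elim0⟩
          · have h1 := hfar w h
            have h3 : (0:ℝ) < n := by exact_mod_cast h2
            have h4 : 0 < ε * (n:ℝ) ^ 2 := by positivity
            simp only [sub_self, abs_zero, Finset.sum_const_zero] at h1
            linarith
        have h1 : (exactAlg d n).run (prob K w) = false := by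
          rw [← Bool.not_eq_true]
          intro h; exact h0 ((exactAlg_run d n K w).mp h)
        unfold ansProb
        rw [PMF.pure_map, h1, PMF.pure_apply_self]
        exact ENNReal.div_le_of_le_mul (by norm_num)
    · intro K w h
      have h1 := (exactAlg_run d n K w).mpr h
      unfold ansProb
      rw [PMF.pure_map, h1, PMF.pure_apply_self]
  · push Not at hn
    have hnpos : 0 < n := by
      have : 0 < s * (d + 1) := by positivity
      unfold nn at hn
      omega
    have : Nonempty (Fin n) := ⟨⟨0, hnpos⟩⟩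
    have hone := sampler_oneSided (by omega : 0 < d) n (6 * s) (QQ d s)
    refine ⟨sampler d n (6 * s) (QQ d s), ?_, ⟨?_, ?_⟩, hone⟩
    · intro D hD K w
      exact le_trans (sampler_cost d n (6 * s) (QQ d s) D hD K w)
        (le_trans (bound_sampler d s) hQ)
    · intro K w h
      rw [hone K w h]
      exact ENNReal.div_le_of_le_mul (by norm_num)
    · intro K w hfar
      exact sampler_rejects hd hs2 hse hε hn K w hfar

end Pool.Agent.Lib.MP4530.BTDim
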