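import Pool.Agent.Lib.MP_4530c2_lc.Sound
import Pool.Agent.Lib.MP_4530c2_lc.Config

set_option autoImplicit false
set_option linter.unusedSectionVars false

/-! Parameters, and the combined closeness statement. -/

namespace Pool.Agent.Lib.MP4530

open Finset BigOperators

/-- number of centres -/
def mm (d s : ℕ) : ℕ := (3 * s) ^ (d + 1)
/-- size of the test block -/
def MM (d s : ℕ) : ℕ := 12 * s ^ 3 * (mm d s + 1) ^ 2
/-- size of the transfer sample -/
def qq (d s : ℕ) : ℕ := 43 * mm d s ^ 3 * s ^ 2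
/-- size of a block -/
def QQ (d s : ℕ) : ℕ := (mm d s + 1) + MM d s + qq d s
/-- size above which vertices are sampled -/
def nn (d s : ℕ) : ℕ := qq d s + s * (d + 1)

lemma E_sub_sample {V : Type*} [Fintype V] [Nonempty V] {α β : Type*} [Fintype α] [Fintype β]
    [DecidableEq α] [DecidableEq β] (h : Fintype.card α ≤ Fintype.card β) (d : ℕ)
    (p : V → V → ℝ) :
    E (fun z : α → V => ind (¬ RepOn d p (Set.range z)))
      ≤ E (fun z : β → V => ind (¬ RepOn d p (Set.range z))) := by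
  obtain ⟨ι⟩ := Function.Embedding.nonempty_of_card_le h
  rw [← E_marginal ι ι.injective (fun z : α → V => ind (¬ RepOn d p (Set.range z)))]
  apply E_mono
  intro z
  apply ind_mono
  intro hz hcon
  exact hz (hcon.mono (Set.range_comp_subset_range _ _))

theorem close_of_good {n d s : ℕ} (hd : 2 ≤ d) (hs : 2 ≤ s) (hn : nn d s ≤ n)
    (p : Fin n → Fin n → ℝ) (h0 : ∀ x y, 0 ≤ p x y) (h1 : ∀ x y, p x y ≤ 1)
    (hanti : ∀ x y, p x y + p y x = 1)
    (hgood : E (fun z : Fin (QQ d s) → Fin n => ind (¬ RepOn d p (Set.range z)))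
      ≤ 1 / (3 * s : ℝ)) :
    ∃ a : Fin n → Fin d → ℝ, (∀ x i, 0 < a x i) ∧
      ¬ RepOff (d - 1) (fun x y => F (a x) (a y)) ∧
      E (fun x => E (fun y => |p x y - F (a x) (a y)|)) ≤ 175 / s := by
  classical
  have hsr : (0:ℝ) < s := by exact_mod_cast (by omega : 0 < s)
  have hs2 : (2:ℝ) ≤ s := by exact_mod_cast hs
  have hm : 0 < mm d s := by unfold mm; positivity
  have hM : 0 < MM d s := by unfold MM; positivity
  have hmr : (0:ℝ) < mm d s := by exact_mod_cast hm
  have hMr : (0:ℝ) < MM d s := by exact_mod_cast hM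
  have hnn : s * (d + 1) ≤ n := by unfold nn at hn; omega
  have hnpos : 0 < n := by
    have : 0 < s * (d + 1) := by positivity
    omega
  haveI : Nonempty (Fin n) := ⟨⟨0, hnpos⟩⟩
  have hη : E (fun z : Option (Fin (mm d s)) ⊕ Fin (MM d s) → Fin n =>
      ind (¬ RepOn d p (Set.range z))) ≤ 1 / (3 * s : ℝ) := by
    refine le_trans (E_sub_sample ?_ d p) hgood
    simp only [Fintype.card_sum, Fintype.card_option, Fintype.card_fin]
    unfold QQ; omega
  have hq2 : E (fun z : Fin (qq d s) → Fin n => ind (¬ RepOn d p (Set.range z))) ≤ 1 / 4 := by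
    have e1 : E (fun z : Fin (qq d s) → Fin n => ind (¬ RepOn d p (Set.range z)))
        ≤ 1 / (3 * s : ℝ) := by
      refine le_trans (E_sub_sample ?_ d p) hgood
      simp only [Fintype.card_fin]
      unfold QQ; omega
    have e2 : 1 / (3 * s : ℝ) ≤ 1 / 4 := by
      rw [div_le_div_iff₀ (by positivity) (by norm_num)]; linarith
    linarith
  have hpar : ((2 * s + 1 : ℕ) : ℝ) ^ d / (mm d s + 1) + 1 / (3 * s : ℝ)
      + (mm d s + 1) ^ 2 * (4 * s ^ 2 / MM d s) ≤ 1 / s := by
    have e1 : ((2 * s + 1 : ℕ) : ℝ) ^ d / (mm d s + 1) ≤ 1 / (3 * s : ℝ) := by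
      rw [div_le_div_iff₀ (by positivity) (by positivity)]
      have e2 : ((2 * s + 1 : ℕ) : ℝ) ≤ 3 * s := by push_cast; linarith
      have e3 : ((2 * s + 1 : ℕ) : ℝ) ^ d ≤ (3 * (s:ℝ)) ^ d :=
        pow_le_pow_left₀ (by positivity) e2 d
      have e4 : (mm d s : ℝ) = (3 * (s:ℝ)) ^ d * (3 * s) := by
        unfold mm; push_cast; rw [pow_succ]
      have e5 : ((2 * s + 1 : ℕ) : ℝ) ^ d * (3 * s) ≤ (3 * (s:ℝ)) ^ d * (3 * s) :=
        mul_le_mul_of_nonneg_right e3 (by positivity)
      linarith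
    have e6 : (mm d s + 1 : ℝ) ^ 2 * (4 * s ^ 2 / MM d s) = 1 / (3 * s : ℝ) := by
      unfold MM
      push_cast
      field_simp
      norm_num
    have e7 : (1:ℝ) / s = 1 / (3 * s) + 1 / (3 * s) + 1 / (3 * s) := by field_simp; norm_num
    rw [e6, e7]
    linarith
  have hm1 : 1 ≤ mm d s ^ 3 := Nat.one_le_pow _ _ hm
  have hs1 : s ≤ s ^ 2 := by nlinarith
  have hq1 : 27 * s ≤ qq d s := by
    unfold qq
    calc 27 * s ≤ 43 * 1 * s ^ 2 := by nlinarith
      _ ≤ 43 * mm d s ^ 3 * s ^ 2 := by gcongr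
  have hq3 : 16 * mm d s ^ 3 * s ^ 2 ≤ qq d s := by
    unfold qq; gcongr; norm_num
  have hnq : qq d s ≤ Fintype.card (Fin n) := by
    rw [Fintype.card_fin]; unfold nn at hn; omega
  obtain ⟨a, ha, hclose⟩ := sound_A (by omega : 0 < d) hm hM (by omega : 0 < s) p h0 h1 hanti
    (1 / (3 * s : ℝ)) hη hpar hq2 hq1 hq3 hnq
  have hV : d + 1 ≤ Fintype.card (Fin n) := by
    rw [Fintype.card_fin]
    calc d + 1 = 1 * (d + 1) := by ring
      _ ≤ s * (d + 1) := by gcongr; omega
      _ ≤ n := hnn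
  obtain ⟨a', ha', hnot, B, hB, hBa⟩ := density hd hV a ha
  refine ⟨a', ha', hnot, ?_⟩
  have hF1 : ∀ (u v : Fin d → ℝ), (∀ i, 0 < u i) → (∀ i, 0 < v i) → 0 ≤ F u v ∧ F u v ≤ 1 := by
    intro u v hu hv
    have hdr : (0:ℝ) < d := by exact_mod_cast (by omega : 0 < d)
    unfold F
    constructor
    · apply mul_nonneg (by positivity)
      exact Finset.sum_nonneg fun i _ => bt_nonneg (hu i) (hv i)
    · rw [one_div, inv_mul_le_iff₀ hdr, mul_one]
      calc ∑ i, u i / (u i + v i) ≤ ∑ _i : Fin d, (1:ℝ) :=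
            Finset.sum_le_sum fun i _ => bt_le_one (hu i) (hv i)
        _ = d := by simp
  have hpt : ∀ x y, |p x y - F (a' x) (a' y)| ≤ |p x y - F (a x) (a y)| + ind (x ∈ B) + ind (y ∈ B) := by
    intro x y
    by_cases hx : x ∈ B
    · rw [ind_true hx]
      have b1 := hF1 _ _ (ha' x) (ha' y)
      have : |p x y - F (a' x) (a' y)| ≤ 1 := by
        rw [abs_le]; constructor <;> linarith [h0 x y, h1 x y, b1.1, b1.2]
      linarith [ind_nonneg (y ∈ B), abs_nonneg (p x y - F (a x) (a y))]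
    · by_cases hy : y ∈ B
      · rw [ind_true hy]
        have b1 := hF1 _ _ (ha' x) (ha' y)
        have : |p x y - F (a' x) (a' y)| ≤ 1 := by
          rw [abs_le]; constructor <;> linarith [h0 x y, h1 x y, b1.1, b1.2]
        linarith [ind_nonneg (x ∈ B), abs_nonneg (p x y - F (a x) (a y))]
      · rw [hBa x hx, hBa y hy]
        linarith [ind_nonneg (x ∈ B), ind_nonneg (y ∈ B)]
  have hEB : E (fun x : Fin n => ind (x ∈ B)) ≤ 1 / s := by
    unfold E
    have e1 : ∑ x : Fin n, ind (x ∈ B) = (d + 1 : ℝ) := by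
      have : ∑ x : Fin n, ind (x ∈ B) = ∑ x : Fin n, if x ∈ B then (1:ℝ) else 0 := by
        apply Finset.sum_congr rfl
        intro x _
        by_cases hx : x ∈ B <;> simp [ind, hx]
      rw [this, Finset.sum_ite_mem, univ_inter, sum_const, hB]
      simp
    rw [e1, Fintype.card_fin, div_le_div_iff₀ (by exact_mod_cast hnpos) hsr]
    have : (s * (d + 1) : ℝ) ≤ n := by exact_mod_cast hnn
    linarith
  calc E (fun x => E (fun y => |p x y - F (a' x) (a' y)|))
      ≤ E (fun x => E (fun y => |p x y - F (a x) (a y)| + ind (x ∈ B) + ind (y ∈ B))) :=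
        E_mono fun x => E_mono fun y => hpt x y
    _ = E (fun x => E (fun y => |p x y - F (a x) (a y)|)) + E (fun x : Fin n => ind (x ∈ B))
        + E (fun y : Fin n => ind (y ∈ B)) := by
        have : ∀ x, E (fun y => |p x y - F (a x) (a y)| + ind (x ∈ B) + ind (y ∈ B))
            = E (fun y => |p x y - F (a x) (a y)|) + ind (x ∈ B)
              + E (fun y : Fin n => ind (y ∈ B)) := by
          intro x
          rw [E_add, E_add, E_const]
        simp_rw [this]
        rw [E_add, E_add, E_const]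
    _ ≤ 173 / s + 1 / s + 1 / s := by linarith
    _ = 175 / s := by ring

end Pool.Agent.Lib.MP4530
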