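import Pool.Agent.Lib.MP_4530c2_lc.Avg

set_option autoImplicit false

/-! Averages of Bradley-Terry kernels and the packing bound for their rows. -/

namespace Pool.Agent.Lib.MP4530

open Finset BigOperators

/-- `F a b = (1/d) * sum_i a_i / (a_i + b_i)`. -/
noncomputable def F {d : ℕ} (a b : Fin d → ℝ) : ℝ :=
  (1 / (d:ℝ)) * ∑ i, a i / (a i + b i)

/-- `p` restricted to `S` is an average of `d` Bradley-Terry kernels (diagonal `1/2` included). -/
def RepOn {V : Type*} (d : ℕ) (p : V → V → ℝ) (S : Set V) : Prop :=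
  ∃ a : V → Fin d → ℝ, (∀ x i, 0 < a x i) ∧ ∀ x ∈ S, ∀ y ∈ S, p x y = F (a x) (a y)

lemma RepOn.mono {V : Type*} {d : ℕ} {p : V → V → ℝ} {S T : Set V} (h : RepOn d p T)
    (hST : S ⊆ T) : RepOn d p S := by
  obtain ⟨a, ha, hp⟩ := h
  exact ⟨a, ha, fun x hx y hy => hp x (hST hx) y (hST hy)⟩

lemma bt_mono {u v w : ℝ} (hu : 0 < u) (hw : 0 < w) (huv : u ≤ v) :
    u / (u + w) ≤ v / (v + w) := by
  have hv : 0 < v := lt_of_lt_of_le hu huv
  rw [div_le_div_iff₀ (by positivity) (by positivity)]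
  nlinarith

lemma bt_nonneg {u w : ℝ} (hu : 0 < u) (hw : 0 < w) : 0 ≤ u / (u + w) := by positivity

lemma bt_le_one {u w : ℝ} (hu : 0 < u) (hw : 0 < w) : u / (u + w) ≤ 1 := by
  rw [div_le_one (by positivity)]; linarith

/-- coordinate of a row -/
noncomputable def hc {V : Type*} {d M : ℕ} (a : V → Fin d → ℝ) (y : Fin M → V) (v : V)
    (c : Fin d) : ℝ :=
  (∑ j, a v c / (a v c + a (y j) c)) / M

lemma hc_nonneg {V : Type*} {d M : ℕ} {a : V → Fin d → ℝ} (ha : ∀ x i, 0 < a x i)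
    (y : Fin M → V) (v : V) (c : Fin d) : 0 ≤ hc a y v c := by
  unfold hc
  exact div_nonneg (Finset.sum_nonneg fun j _ => bt_nonneg (ha _ _) (ha _ _)) (by positivity)

lemma hc_le_one {V : Type*} {d M : ℕ} (hM : 0 < M) {a : V → Fin d → ℝ} (ha : ∀ x i, 0 < a x i)
    (y : Fin M → V) (v : V) (c : Fin d) : hc a y v c ≤ 1 := by
  unfold hc
  have hMr : (0:ℝ) < M := by exact_mod_cast hM
  rw [div_le_one hMr]
  calc ∑ j, a v c / (a v c + a (y j) c) ≤ ∑ _j : Fin M, (1:ℝ) :=
        Finset.sum_le_sum fun j _ => bt_le_one (ha _ _) (ha _ _)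
    _ = M := by simp

lemma sum_abs_eq {V : Type*} {d M : ℕ} {a : V → Fin d → ℝ} (ha : ∀ x i, 0 < a x i)
    (y : Fin M → V) (v v' : V) (c : Fin d) :
    (∑ j, |a v c / (a v c + a (y j) c) - a v' c / (a v' c + a (y j) c)|) / M
      ≤ |hc a y v c - hc a y v' c| := by
  wlog h : a v c ≤ a v' c generalizing v v' with H
  · have := H v' v (le_of_not_ge h)
    rw [abs_sub_comm (hc a y v c)]
    refine le_trans (le_of_eq ?_) this
    congr 1
    exact Finset.sum_congr rfl fun j _ => abs_sub_comm _ _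
  · have h1 : ∀ j, |a v c / (a v c + a (y j) c) - a v' c / (a v' c + a (y j) c)|
        = a v' c / (a v' c + a (y j) c) - a v c / (a v c + a (y j) c) := by
      intro j
      rw [abs_sub_comm, abs_of_nonneg]
      exact sub_nonneg.mpr (bt_mono (ha _ _) (ha _ _) h)
    simp_rw [h1]
    rw [Finset.sum_sub_distrib, sub_div, abs_sub_comm]
    exact le_abs_self _

lemma row_dist_le {V : Type*} {d M : ℕ} {a : V → Fin d → ℝ} (ha : ∀ x i, 0 < a x i)
    (y : Fin M → V) (v v' : V) :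
    (∑ j, |F (a v) (a (y j)) - F (a v') (a (y j))|) / M
      ≤ (1 / (d:ℝ)) * ∑ c, |hc a y v c - hc a y v' c| := by
  have hd0 : (0:ℝ) ≤ 1 / (d:ℝ) := by positivity
  have hM0 : (0:ℝ) ≤ (M:ℝ) := by positivity
  have h1 : ∀ j, |F (a v) (a (y j)) - F (a v') (a (y j))|
      ≤ (1 / (d:ℝ)) * ∑ c, |a v c / (a v c + a (y j) c) - a v' c / (a v' c + a (y j) c)| := by
    intro j
    unfold F
    rw [← mul_sub, abs_mul, abs_of_nonneg hd0, ← Finset.sum_sub_distrib]
    exact mul_le_mul_of_nonneg_left (Finset.abs_sum_le_sum_abs _ _) hd0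
  calc (∑ j, |F (a v) (a (y j)) - F (a v') (a (y j))|) / M
      ≤ (∑ j, (1 / (d:ℝ)) * ∑ c, |a v c / (a v c + a (y j) c) - a v' c / (a v' c + a (y j) c)|) / M :=
        div_le_div_of_nonneg_right (Finset.sum_le_sum fun j _ => h1 j) hM0
    _ = (1 / (d:ℝ)) * ∑ c, (∑ j, |a v c / (a v c + a (y j) c) - a v' c / (a v' c + a (y j) c)|) / M := by
        rw [← Finset.mul_sum, Finset.sum_comm, mul_div_assoc, Finset.sum_div]
    _ ≤ _ := mul_le_mul_of_nonneg_left (Finset.sum_le_sum fun c _ => sum_abs_eq ha y v v' c) hd0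

/-- Packing bound: points of a represented set whose rows are pairwise more than `1/K` apart
(average over `y`) number at most `(K+1)^d`. -/
lemma packing {V ι : Type*} {d K M : ℕ} (hd : 0 < d) (hK : 0 < K) (hM : 0 < M)
    {p : V → V → ℝ} {S : Set V} (hrep : RepOn d p S) (y : Fin M → V) (hy : ∀ j, y j ∈ S)
    (x : ι → V) (I : Finset ι) (hx : ∀ i ∈ I, x i ∈ S)
    (hsep : ∀ i ∈ I, ∀ i' ∈ I, i ≠ i' →
      1 / (K:ℝ) < (∑ j, |p (x i) (y j) - p (x i') (y j)|) / M) :
    I.card ≤ (K + 1) ^ d := by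
  classical
  obtain ⟨a, ha, hp⟩ := hrep
  have hKr : (0:ℝ) < K := by exact_mod_cast hK
  have hdr : (0:ℝ) < d := by exact_mod_cast hd
  have hfl : ∀ (v : V) (c : Fin d), ⌊(K:ℝ) * hc a y v c⌋₊ < K + 1 := by
    intro v c
    have h1 : (K:ℝ) * hc a y v c ≤ K := by
      have := hc_le_one hM ha y v c
      nlinarith
    have : ⌊(K:ℝ) * hc a y v c⌋₊ ≤ K := by
      calc ⌊(K:ℝ) * hc a y v c⌋₊ ≤ ⌊(K:ℝ)⌋₊ := Nat.floor_le_floor h1
        _ = K := Nat.floor_natCast K
    omega
  let code : ι → (Fin d → Fin (K + 1)) := fun i c => ⟨⌊(K:ℝ) * hc a y (x i) c⌋₊, hfl _ _⟩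
  have hinj : Set.InjOn code (I : Set ι) := by
    intro i hi i' hi' heq
    by_contra hne
    have hs := hsep i hi i' hi' hne
    have hrow : (∑ j, |p (x i) (y j) - p (x i') (y j)|) / M
        ≤ (1 / (d:ℝ)) * ∑ c, |hc a y (x i) c - hc a y (x i') c| := by
      have : ∀ j, |p (x i) (y j) - p (x i') (y j)|
          = |F (a (x i)) (a (y j)) - F (a (x i')) (a (y j))| := by
        intro j
        rw [hp _ (hx i hi) _ (hy j), hp _ (hx i' hi') _ (hy j)]
      simp_rw [this]
      exact row_dist_le ha y _ _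
    have hcl : ∀ c, |hc a y (x i) c - hc a y (x i') c| ≤ 1 / K := by
      intro c
      have hc1 : ⌊(K:ℝ) * hc a y (x i) c⌋₊ = ⌊(K:ℝ) * hc a y (x i') c⌋₊ := by
        have := congrFun heq c
        simpa [code] using this
      have p1 : 0 ≤ (K:ℝ) * hc a y (x i) c := mul_nonneg hKr.le (hc_nonneg ha y _ _)
      have p2 : 0 ≤ (K:ℝ) * hc a y (x i') c := mul_nonneg hKr.le (hc_nonneg ha y _ _)
      have l1 := Nat.floor_le p1
      have l2 := Nat.lt_floor_add_one ((K:ℝ) * hc a y (x i) c)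
      have l3 := Nat.floor_le p2
      have l4 := Nat.lt_floor_add_one ((K:ℝ) * hc a y (x i') c)
      rw [hc1] at l1 l2
      rw [abs_le]
      constructor
      · have : -(1:ℝ) ≤ K * (hc a y (x i) c - hc a y (x i') c) := by rw [mul_sub]; linarith
        rw [neg_le_iff_add_nonneg]
        have h9 : 0 ≤ ((K:ℝ) * (hc a y (x i) c - hc a y (x i') c) + 1) / K := by
          apply div_nonneg (by linarith) hKr.le
        have h10 : ((K:ℝ) * (hc a y (x i) c - hc a y (x i') c) + 1) / K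
            = hc a y (x i) c - hc a y (x i') c + 1 / K := by field_simp
        linarith
      · rw [le_div_iff₀ hKr]
        have : (K:ℝ) * (hc a y (x i) c - hc a y (x i') c) ≤ 1 := by rw [mul_sub]; linarith
        linarith
    have hfin : (1 / (d:ℝ)) * ∑ c, |hc a y (x i) c - hc a y (x i') c| ≤ 1 / K := by
      calc (1 / (d:ℝ)) * ∑ c, |hc a y (x i) c - hc a y (x i') c|
          ≤ (1 / (d:ℝ)) * ∑ _c : Fin d, 1 / (K:ℝ) :=
            mul_le_mul_of_nonneg_left (Finset.sum_le_sum fun c _ => hcl c) (by positivity)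
        _ = 1 / K := by
            simp only [sum_const, card_univ, Fintype.card_fin, nsmul_eq_mul]
            field_simp
    linarith
  calc I.card = (I.image code).card := (Finset.card_image_of_injOn hinj).symm
    _ ≤ Fintype.card (Fin d → Fin (K + 1)) := Finset.card_le_univ _
    _ = (K + 1) ^ d := by simp

end Pool.Agent.Lib.MP4530
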