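import Pool.Agent.Lib.MP_4530c2_lc.Step

set_option autoImplicit false
set_option linter.unusedSectionVars false

/-! If random samples are representable then the whole kernel is close to a representable one. -/

namespace Pool.Agent.Lib.MP4530

open Finset BigOperators

section
variable {V : Type*} [Fintype V] [Nonempty V]

lemma rho_triangle (p : V → V → ℝ) (x x' t : V) : rho p x x' ≤ rho p x t + rho p x' t := by
  unfold rho
  rw [← E_add]
  apply E_mono
  intro y
  have := abs_sub_le (p x y) (p t y) (p x' y)
  rw [abs_sub_comm (p t y)] at this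
  exact this

lemma rho_le_one (p : V → V → ℝ) (h0 : ∀ x y, 0 ≤ p x y) (h1 : ∀ x y, p x y ≤ 1) (x x' : V) :
    rho p x x' ≤ 1 := by
  unfold rho
  apply E_le_one
  intro y
  rw [abs_le]
  constructor <;> linarith [h0 x y, h1 x y, h0 x' y, h1 x' y]

theorem sound_A {d m M q s : ℕ} (hd : 0 < d) (hm : 0 < m) (hM : 0 < M) (hs : 0 < s)
    (p : V → V → ℝ) (h0 : ∀ x y, 0 ≤ p x y) (h1 : ∀ x y, p x y ≤ 1)
    (hanti : ∀ x y, p x y + p y x = 1) (η : ℝ)
    (hη : E (fun z : Option (Fin m) ⊕ Fin M → V => ind (¬ RepOn d p (Set.range z))) ≤ η)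
    (hpar : ((2 * s + 1 : ℕ) : ℝ) ^ d / (m + 1) + η + (m + 1) ^ 2 * (4 * s ^ 2 / M) ≤ 1 / s)
    (hq2 : E (fun z : Fin q → V => ind (¬ RepOn d p (Set.range z))) ≤ 1 / 4)
    (hq1 : 27 * s ≤ q) (hq3 : 16 * m ^ 3 * s ^ 2 ≤ q) (hn : q ≤ Fintype.card V) :
    ∃ a : V → Fin d → ℝ, (∀ x i, 0 < a x i) ∧
      E (fun x => E (fun y => |p x y - F (a x) (a y)|)) ≤ 173 / s := by
  classical
  have hsr : (0:ℝ) < s := by exact_mod_cast hs
  have hmr : (0:ℝ) < m := by exact_mod_cast hm
  have hq : 0 < q := by
    have : 0 < 27 * s := by positivity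
    omega
  have hqr : (0:ℝ) < q := by exact_mod_cast hq
  have hnr : (0:ℝ) < (Fintype.card V : ℝ) := card_pos'
  obtain ⟨x', hx'⟩ := cover hd hM hs p h0 h1 η hη
  have hx'2 := le_trans hx' hpar
  clear hx'
  -- the classes
  let c : V → Option (Fin m) := fun x =>
    if h : ∃ j, rho p x (x' j) ≤ 1 / (s:ℝ) then some h.choose else none
  have hc_some : ∀ x j, c x = some j → rho p x (x' j) ≤ 1 / (s:ℝ) := by
    intro x j hcx
    simp only [c] at hcx
    by_cases h : ∃ j, rho p x (x' j) ≤ 1 / (s:ℝ)
    · rw [dif_pos h] at hcx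
      have := h.choose_spec
      rw [Option.some.inj hcx] at this
      exact this
    · rw [dif_neg h] at hcx; exact absurd hcx (by simp)
  have hc_none : E (fun x => ind (c x = none)) ≤ 1 / s := by
    refine le_trans (E_mono fun x => ind_mono ?_) hx'2
    intro hcx j
    by_contra hcon
    push Not at hcon
    have : ∃ j, rho p x (x' j) ≤ 1 / (s:ℝ) := ⟨j, hcon⟩
    simp only [c] at hcx
    rw [dif_pos this] at hcx
    exact absurd hcx (by simp)
  let k : V → ℝ := fun x => 2 / s + ind (c x = none)
  have hk : ∀ x, av c (fun x'' => rho p x x'') x ≤ k x := by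
    intro x
    rcases hcx : c x with _ | j
    · have h2 := av_mono c (g := fun x'' => rho p x x'') (h := fun _ => 1) x
        (fun x'' _ => rho_le_one p h0 h1 x x'')
      rw [av_const] at h2
      have h3 : k x = 2 / s + 1 := by simp only [k]; rw [ind_true hcx]
      rw [h3]
      have : (0:ℝ) ≤ 2 / s := by positivity
      linarith
    · have h2 := av_mono c (g := fun x'' => rho p x x'') (h := fun _ => 2 / (s:ℝ)) x
        (fun x'' hxx => by
          have e1 := hc_some x j hcx
          have e2 := hc_some x'' j (by rw [hxx, hcx])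
          have e3 := rho_triangle p x x'' (x' j)
          have e4 : 2 / (s:ℝ) = 1 / s + 1 / s := by ring
          linarith)
      rw [av_const] at h2
      have := ind_nonneg (c x = none)
      simp only [k]
      linarith
  have hEk : E k ≤ 3 / s := by
    have : E k = 2 / s + E (fun x => ind (c x = none)) := by
      simp only [k]; rw [E_add, E_const]
    rw [this]
    have : (3:ℝ) / s = 2 / s + 1 / s := by ring
    linarith
  obtain ⟨W, hW01, hWc, hWE⟩ := step_approx p h0 h1 hanti c k hk
  have hlam : E (fun x => E (fun y => |p x y - W x y|)) ≤ 6 / s := by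
    have : (6:ℝ) / s = 2 * (3 / s) := by ring
    linarith
  have hpW1 : ∀ x y, |p x y - W x y| ≤ 1 := by
    intro x y
    rw [abs_le]
    constructor <;> linarith [h0 x y, h1 x y, (hW01 x y).1, (hW01 x y).2]
  -- choose the sample
  let mu : Fin m → ℝ := fun t => E (fun x => ind (c x = some t))
  let G : (Fin q → V) → ℝ := fun z => ∑ k, ∑ l, |p (z k) (z l) - W (z k) (z l)|
  let T : ℝ := 3 * (6 / s * q ^ 2 + q)
  have hT : 0 < T := by positivity
  have hEG : E G ≤ 6 / s * q ^ 2 + q := by
    have e1 : E G = ∑ k : Fin q, ∑ l : Fin q, E (fun z : Fin q → V =>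
        |p (z k) (z l) - W (z k) (z l)|) := by
      simp only [G]
      rw [E_finset_sum]
      apply Finset.sum_congr rfl
      intro k _
      rw [E_finset_sum]
    rw [e1]
    have e2 : ∀ k l : Fin q, E (fun z : Fin q → V => |p (z k) (z l) - W (z k) (z l)|)
        ≤ 6 / s + (if k = l then 1 else 0) := by
      intro k l
      by_cases hkl : k = l
      · rw [if_pos hkl]
        have : E (fun z : Fin q → V => |p (z k) (z l) - W (z k) (z l)|) ≤ 1 :=
          E_le_one fun z => hpW1 _ _
        have h6 : (0:ℝ) ≤ 6 / s := by positivity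
        linarith
      · rw [if_neg hkl, add_zero, E_pair k l hkl (fun x y => |p x y - W x y|)]
        exact hlam
    calc ∑ k : Fin q, ∑ l : Fin q, E (fun z : Fin q → V => |p (z k) (z l) - W (z k) (z l)|)
        ≤ ∑ k : Fin q, ∑ l : Fin q, (6 / (s:ℝ) + (if k = l then 1 else 0)) :=
          Finset.sum_le_sum fun k _ => Finset.sum_le_sum fun l _ => e2 k l
      _ = 6 / s * q ^ 2 + q := by
          simp only [Finset.sum_add_distrib, sum_const, card_univ, Fintype.card_fin, nsmul_eq_mul,
            Finset.sum_ite_eq, mem_univ, if_true]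
          ring
  have hev1 : E (fun z : Fin q → V => ind (T ≤ G z)) ≤ 1 / 3 := by
    have hG0 : ∀ z, 0 ≤ G z := fun z =>
      Finset.sum_nonneg fun k _ => Finset.sum_nonneg fun l _ => abs_nonneg _
    have := markov hG0 hT
    refine le_trans this ?_
    rw [div_le_iff₀ hT]
    simp only [T]
    linarith
  have hev2 : E (fun z : Fin q → V => ind (∃ t : Fin m, 1 / (s * m : ℝ) ≤ mu t ∧
      (∑ k, ind (c (z k) = some t)) / q ≤ mu t / 2)) ≤ 1 / 4 := by
    have step1 : E (fun z : Fin q → V => ind (∃ t : Fin m, 1 / (s * m : ℝ) ≤ mu t ∧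
      (∑ k, ind (c (z k) = some t)) / q ≤ mu t / 2)) ≤ ∑ t : Fin m, E (fun z : Fin q → V =>
        ind (1 / (s * m : ℝ) ≤ mu t ∧ (∑ k, ind (c (z k) = some t)) / q ≤ mu t / 2)) := by
      rw [← E_finset_sum]
      exact E_mono fun z => ind_exists_le _
    have step2 : ∀ t : Fin m, E (fun z : Fin q → V =>
        ind (1 / (s * m : ℝ) ≤ mu t ∧ (∑ k, ind (c (z k) = some t)) / q ≤ mu t / 2))
        ≤ 4 * s ^ 2 * m ^ 2 / q := by
      intro t
      have hcheb := chebyshev (M := q) hq (fun x => ind (c x = some t)) (fun x => ind_nonneg _)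
        (fun x => ind_le_one _) (t := 1 / (2 * s * m : ℝ)) (by positivity)
      calc _ ≤ E (fun z : Fin q → V => ind (1 / (2 * s * m : ℝ) ≤
            |(∑ k, ind (c (z k) = some t)) / q - E (fun x => ind (c x = some t))|)) := by
            apply E_mono
            intro z
            apply ind_mono
            rintro ⟨ha, hb⟩
            rw [abs_sub_comm]
            refine le_trans ?_ (le_abs_self _)
            have e1 : mu t = E (fun x => ind (c x = some t)) := rfl
            rw [← e1]
            have e2 : 1 / (s * m : ℝ) = 2 * (1 / (2 * s * m : ℝ)) := by field_simp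
            linarith
        _ ≤ _ := hcheb
        _ = 4 * s ^ 2 * m ^ 2 / q := by field_simp; norm_num
    refine le_trans step1 (le_trans (Finset.sum_le_sum fun t _ => step2 t) ?_)
    simp only [sum_const, card_univ, Fintype.card_fin, nsmul_eq_mul]
    rw [← mul_div_assoc, div_le_iff₀ hqr]
    have : (16 * m ^ 3 * s ^ 2 : ℝ) ≤ q := by exact_mod_cast hq3
    nlinarith
  have hex : ∃ z : Fin q → V, ind (T ≤ G z) + ind (∃ t : Fin m, 1 / (s * m : ℝ) ≤ mu t ∧
      (∑ k, ind (c (z k) = some t)) / q ≤ mu t / 2) + ind (¬ RepOn d p (Set.range z)) < 1 := by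
    apply exists_lt_of_E_lt
    rw [E_add, E_add]
    linarith
  obtain ⟨z, hz⟩ := hex
  have n1 := ind_nonneg (T ≤ G z)
  have n2 := ind_nonneg (∃ t : Fin m, 1 / (s * m : ℝ) ≤ mu t ∧
      (∑ k, ind (c (z k) = some t)) / q ≤ mu t / 2)
  have n3 := ind_nonneg (¬ RepOn d p (Set.range z))
  have hz1 : G z < T := by
    by_contra hcon
    push Not at hcon
    rw [ind_true hcon] at hz
    linarith
  have hz2 : ∀ t : Fin m, 1 / (s * m : ℝ) ≤ mu t →
      mu t / 2 < (∑ k, ind (c (z k) = some t)) / q := by
    intro t ht
    by_contra hcon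
    push Not at hcon
    rw [ind_true (P := ∃ t : Fin m, 1 / (s * m : ℝ) ≤ mu t ∧
      (∑ k, ind (c (z k) = some t)) / q ≤ mu t / 2) ⟨t, ht, hcon⟩] at hz
    linarith
  have hz3 : RepOn d p (Set.range z) := by
    by_contra hcon
    rw [ind_true hcon] at hz
    linarith
  -- the transfer map
  let large : Option (Fin m) → Prop := fun t => ∃ t', t = some t' ∧ 1 / (s * m : ℝ) ≤ mu t'
  let r : ℕ := ⌈2 * (Fintype.card V : ℝ) / q⌉₊
  have hnq : (q:ℝ) ≤ Fintype.card V := by exact_mod_cast hn
  have hr3 : (r:ℝ) ≤ 3 * (Fintype.card V : ℝ) / q := by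
    have e1 : (r:ℝ) < 2 * (Fintype.card V : ℝ) / q + 1 := Nat.ceil_lt_add_one (by positivity)
    have e2 : 1 ≤ (Fintype.card V : ℝ) / q := by rw [le_div_iff₀ hqr]; linarith
    have e3 : 3 * (Fintype.card V : ℝ) / q = 2 * (Fintype.card V : ℝ) / q + (Fintype.card V : ℝ) / q := by
      ring
    linarith
  have hcount : ∀ t, large t →
      Nat.card {x : V // c x = t} ≤ Nat.card {k : Fin q // c (z k) = t} * r := by
    rintro t ⟨t', rfl, ht'⟩
    have e1 := hz2 t' ht'
    have e2 : (Nat.card {x : V // c x = some t'} : ℝ) = Fintype.card V * mu t' := by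
      simp only [mu, E]
      rw [mul_div_cancel₀ _ hnr.ne']
      rw [Nat.card_eq_fintype_card, Fintype.card_subtype, Finset.card_filter]
      push_cast
      apply Finset.sum_congr rfl
      intro x _
      by_cases hxt : c x = some t' <;> simp [ind, hxt]
    have e3 : (Nat.card {k : Fin q // c (z k) = some t'} : ℝ) = ∑ k, ind (c (z k) = some t') := by
      rw [Nat.card_eq_fintype_card, Fintype.card_subtype, Finset.card_filter]
      push_cast
      apply Finset.sum_congr rfl
      intro x _
      by_cases hxt : c (z x) = some t' <;> simp [ind, hxt]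
    have e4 : (2 * (Fintype.card V : ℝ) / q) ≤ r := Nat.le_ceil _
    have e5 : (Nat.card {x : V // c x = some t'} : ℝ)
        ≤ (Nat.card {k : Fin q // c (z k) = some t'} : ℝ) * r := by
      rw [e2, e3]
      have hS0 : 0 ≤ ∑ k, ind (c (z k) = some t') := Finset.sum_nonneg fun k _ => ind_nonneg _
      have e6 : mu t' * q ≤ 2 * ∑ k, ind (c (z k) = some t') := by
        rw [lt_div_iff₀ hqr] at e1
        linarith
      calc (Fintype.card V : ℝ) * mu t' = (Fintype.card V : ℝ) / q * (mu t' * q) := by field_simp
        _ ≤ (Fintype.card V : ℝ) / q * (2 * ∑ k, ind (c (z k) = some t')) :=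
            mul_le_mul_of_nonneg_left e6 (by positivity)
        _ = (∑ k, ind (c (z k) = some t')) * (2 * (Fintype.card V : ℝ) / q) := by ring
        _ ≤ _ := mul_le_mul_of_nonneg_left e4 hS0
    exact_mod_cast e5
  obtain ⟨π, hπc, hπs⟩ := exists_transfer c hq z r large hcount
  obtain ⟨a, ha, hpa⟩ := hz3
  refine ⟨fun x => a (z (π x)), fun x i => ha _ i, ?_⟩
  have hF : ∀ x y, F (a (z (π x))) (a (z (π y))) = p (z (π x)) (z (π y)) := by
    intro x y
    exact (hpa _ ⟨_, rfl⟩ _ ⟨_, rfl⟩).symm
  simp_rw [hF]
  let f : Fin q → Fin q → ℝ := fun k l => |p (z k) (z l) - W (z k) (z l)|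
  -- pointwise
  have hpoint : ∀ x y, |p x y - p (z (π x)) (z (π y))| ≤ |p x y - W x y|
      + (ind (large (c x)) * ind (large (c y))) * f (π x) (π y)
      + ind (¬ large (c x)) + ind (¬ large (c y)) := by
    intro x y
    have hle1 : |p x y - p (z (π x)) (z (π y))| ≤ 1 := by
      rw [abs_le]
      constructor <;> linarith [h0 x y, h1 x y, h0 (z (π x)) (z (π y)), h1 (z (π x)) (z (π y))]
    have ab := abs_nonneg (p x y - W x y)
    have hf0 : 0 ≤ f (π x) (π y) := abs_nonneg _
    by_cases hx : large (c x)
    · by_cases hy : large (c y)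
      · rw [ind_true hx, ind_true hy, ind_false (not_not.mpr hx), ind_false (not_not.mpr hy)]
        have e1 : W x y = W (z (π x)) (z (π y)) := hWc _ _ _ _ (hπc x hx).symm (hπc y hy).symm
        have e2 : |p x y - p (z (π x)) (z (π y))| ≤ |p x y - W x y|
            + |W x y - p (z (π x)) (z (π y))| := abs_sub_le _ _ _
        have e3 : |W x y - p (z (π x)) (z (π y))| = f (π x) (π y) := by
          rw [e1, abs_sub_comm]
        linarith
      · rw [ind_true hy]
        have e4 := ind_nonneg (¬ large (c x))
        have e5 : 0 ≤ (ind (large (c x)) * ind (large (c y))) * f (π x) (π y) :=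
          mul_nonneg (mul_nonneg (ind_nonneg _) (ind_nonneg _)) hf0
        linarith
    · rw [ind_true hx]
      have e4 := ind_nonneg (¬ large (c y))
      have e5 : 0 ≤ (ind (large (c x)) * ind (large (c y))) * f (π x) (π y) :=
        mul_nonneg (mul_nonneg (ind_nonneg _) (ind_nonneg _)) hf0
      linarith
  -- bound for the middle term
  have hmid : E (fun x => E (fun y => (ind (large (c x)) * ind (large (c y))) * f (π x) (π y)))
      ≤ 27 * (6 / s + 1 / q) := by
    let L : Finset V := univ.filter (fun x => large (c x))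
    have hL : ∀ x ∈ L, large (c x) := fun x hx => (mem_filter.mp hx).2
    have e1 : ∀ x, ∑ y, (ind (large (c x)) * ind (large (c y))) * f (π x) (π y)
        = ind (large (c x)) * ∑ y ∈ L, f (π x) (π y) := by
      intro x
      rw [Finset.sum_filter, Finset.mul_sum]
      apply Finset.sum_congr rfl
      intro y _
      by_cases hy : large (c y)
      · rw [ind_true hy, if_pos hy, mul_one]
      · rw [ind_false hy, if_neg hy]; ring
    have e2 : ∀ x, ∑ y ∈ L, f (π x) (π y) ≤ r * ∑ l, f (π x) l := by
      intro x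
      exact hπs L hL (fun l => f (π x) l) (fun l => abs_nonneg _)
    have e3 : ∑ x, ∑ y, (ind (large (c x)) * ind (large (c y))) * f (π x) (π y)
        ≤ r * (r * G z) := by
      calc ∑ x, ∑ y, (ind (large (c x)) * ind (large (c y))) * f (π x) (π y)
          = ∑ x, ind (large (c x)) * ∑ y ∈ L, f (π x) (π y) :=
            Finset.sum_congr rfl fun x _ => e1 x
        _ ≤ ∑ x, ind (large (c x)) * (r * ∑ l, f (π x) l) :=
            Finset.sum_le_sum fun x _ => mul_le_mul_of_nonneg_left (e2 x) (ind_nonneg _)
        _ = ∑ x ∈ L, (r * ∑ l, f (π x) l) := by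
            rw [Finset.sum_filter]
            apply Finset.sum_congr rfl
            intro x _
            by_cases hx : large (c x)
            · rw [ind_true hx, if_pos hx, one_mul]
            · rw [ind_false hx, if_neg hx, zero_mul]
        _ ≤ r * ∑ k, (r * ∑ l, f k l) :=
            hπs L hL (fun k => r * ∑ l, f k l)
              (fun k => mul_nonneg (by positivity) (Finset.sum_nonneg fun l _ => abs_nonneg _))
        _ = r * (r * G z) := by rw [← Finset.mul_sum]
    have e4 : E (fun x => E (fun y => (ind (large (c x)) * ind (large (c y))) * f (π x) (π y)))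
        = (∑ x, ∑ y, (ind (large (c x)) * ind (large (c y))) * f (π x) (π y))
          / ((Fintype.card V : ℝ) * (Fintype.card V : ℝ)) := by
      unfold E
      rw [← Finset.sum_div, div_div]
    rw [e4, div_le_iff₀ (by positivity)]
    refine le_trans e3 ?_
    have hG0 : 0 ≤ G z := Finset.sum_nonneg fun k _ => Finset.sum_nonneg fun l _ => abs_nonneg _
    have hr0 : (0:ℝ) ≤ r := by positivity
    calc (r:ℝ) * (r * G z) = (r * r) * G z := by ring
      _ ≤ ((3 * (Fintype.card V : ℝ) / q) * (3 * (Fintype.card V : ℝ) / q)) * T := by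
          apply mul_le_mul (mul_le_mul hr3 hr3 hr0 (by positivity)) hz1.le hG0 (by positivity)
      _ = 27 * (6 / s + 1 / q) * ((Fintype.card V : ℝ) * (Fintype.card V : ℝ)) := by
          simp only [T]; field_simp; ring
  -- bound for the small part
  have hsmall : E (fun x => ind (¬ large (c x))) ≤ 2 / s := by
    have e1 : ∀ x, ind (¬ large (c x)) ≤ ind (c x = none)
        + ∑ t : Fin m, ind (¬ (1 / (s * m : ℝ) ≤ mu t)) * ind (c x = some t) := by
      intro x
      have hsum0 : 0 ≤ ∑ t : Fin m, ind (¬ (1 / (s * m : ℝ) ≤ mu t)) * ind (c x = some t) :=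
        Finset.sum_nonneg fun t _ => mul_nonneg (ind_nonneg _) (ind_nonneg _)
      rcases hcx : c x with _ | t
      · rw [ind_true rfl]
        have := ind_le_one (¬ large none)
        have hsum0' : 0 ≤ ∑ t : Fin m, ind (¬ (1 / (s * m : ℝ) ≤ mu t)) * ind (none = some t) :=
          Finset.sum_nonneg fun t _ => mul_nonneg (ind_nonneg _) (ind_nonneg _)
        linarith
      · have hn0 := ind_nonneg ((some t : Option (Fin m)) = none)
        by_cases ht : 1 / (s * m : ℝ) ≤ mu t
        · have : large (some t) := ⟨t, rfl, ht⟩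
          rw [ind_false (not_not.mpr this)]
          have hsum0' : 0 ≤ ∑ t' : Fin m, ind (¬ (1 / (s * m : ℝ) ≤ mu t')) * ind (some t = some t') :=
            Finset.sum_nonneg fun t _ => mul_nonneg (ind_nonneg _) (ind_nonneg _)
          linarith
        · have e5 : ind (¬ (1 / (s * m : ℝ) ≤ mu t)) * ind (some t = some t)
              ≤ ∑ t' : Fin m, ind (¬ (1 / (s * m : ℝ) ≤ mu t')) * ind (some t = some t') :=
            Finset.single_le_sum
              (f := fun t' => ind (¬ (1 / (s * m : ℝ) ≤ mu t')) * ind (some t = some t'))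
              (fun t' _ => mul_nonneg (ind_nonneg _) (ind_nonneg _)) (mem_univ t)
          rw [ind_true ht, ind_true rfl, one_mul] at e5
          have := ind_le_one (¬ large (some t))
          linarith
    calc E (fun x => ind (¬ large (c x))) ≤ E (fun x => ind (c x = none)
          + ∑ t : Fin m, ind (¬ (1 / (s * m : ℝ) ≤ mu t)) * ind (c x = some t)) := E_mono e1
      _ = E (fun x => ind (c x = none))
          + ∑ t : Fin m, ind (¬ (1 / (s * m : ℝ) ≤ mu t)) * mu t := by
          rw [E_add, E_finset_sum]
          congr 1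
          apply Finset.sum_congr rfl
          intro t _
          rw [E_mul_left]
      _ ≤ 1 / s + ∑ _t : Fin m, 1 / (s * m : ℝ) := by
          apply add_le_add hc_none
          apply Finset.sum_le_sum
          intro t _
          by_cases ht : 1 / (s * m : ℝ) ≤ mu t
          · rw [ind_false (not_not.mpr ht), zero_mul]; positivity
          · rw [ind_true ht, one_mul]; exact (not_le.mp ht).le
      _ = 2 / s := by
          simp only [sum_const, card_univ, Fintype.card_fin, nsmul_eq_mul]
          field_simp; norm_num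
  calc E (fun x => E (fun y => |p x y - p (z (π x)) (z (π y))|))
      ≤ E (fun x => E (fun y => |p x y - W x y|
        + (ind (large (c x)) * ind (large (c y))) * f (π x) (π y)
        + ind (¬ large (c x)) + ind (¬ large (c y)))) :=
        E_mono fun x => E_mono fun y => hpoint x y
    _ = E (fun x => E (fun y => |p x y - W x y|))
        + E (fun x => E (fun y => (ind (large (c x)) * ind (large (c y))) * f (π x) (π y)))
        + E (fun x => ind (¬ large (c x))) + E (fun y => ind (¬ large (c y))) := by
        have : ∀ x, E (fun y => |p x y - W x y|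
            + (ind (large (c x)) * ind (large (c y))) * f (π x) (π y)
            + ind (¬ large (c x)) + ind (¬ large (c y)))
            = E (fun y => |p x y - W x y|)
            + E (fun y => (ind (large (c x)) * ind (large (c y))) * f (π x) (π y))
            + ind (¬ large (c x)) + E (fun y => ind (¬ large (c y))) := by
          intro x
          rw [E_add, E_add, E_add, E_const]
        simp_rw [this]
        rw [E_add, E_add, E_add, E_const]
    _ ≤ 6 / s + 27 * (6 / s + 1 / q) + 2 / s + 2 / s := by linarith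
    _ ≤ 173 / s := by
        have e1 : 27 / (q:ℝ) ≤ 1 / s := by
          rw [div_le_div_iff₀ hqr hsr]
          have : (27 * s : ℝ) ≤ q := by exact_mod_cast hq1
          linarith
        have e2 : 27 * (6 / (s:ℝ) + 1 / q) = 162 / s + 27 / q := by ring
        rw [e2]
        have e3 : (173:ℝ) / s = 6 / s + 162 / s + 1 / s + 2 / s + 2 / s := by ring
        linarith

end

end Pool.Agent.Lib.MP4530
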