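import Pool.Agent.Lib.MP_4530c2_lc.Cover

set_option autoImplicit false
set_option linter.unusedSectionVars false

/-! Step function approximation from a cover of the rows, and balanced transfer maps. -/

namespace Pool.Agent.Lib.MP4530

open Finset BigOperators

section
variable {V : Type*} [Fintype V] [Nonempty V] {κ : Type*}

/-- class of `x` -/
noncomputable def cls (c : V → κ) (x : V) : Finset V := by
  classical exact univ.filter (fun x' => c x' = c x)

lemma mem_cls (c : V → κ) (x x' : V) : x' ∈ cls c x ↔ c x' = c x := by
  simp [cls]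

lemma cls_congr (c : V → κ) {x x' : V} (h : c x = c x') : cls c x = cls c x' := by
  ext y; simp [mem_cls, h]

lemma cls_card_pos (c : V → κ) (x : V) : (0:ℝ) < (cls c x).card := by
  have : 0 < (cls c x).card := Finset.card_pos.mpr ⟨x, (mem_cls c x x).mpr rfl⟩
  exact_mod_cast this

/-- average over the class of `x` -/
noncomputable def av (c : V → κ) (g : V → ℝ) (x : V) : ℝ :=
  (∑ x' ∈ cls c x, g x') / (cls c x).card

lemma av_congr (c : V → κ) (g : V → ℝ) {x x' : V} (h : c x = c x') : av c g x = av c g x' := by
  unfold av; rw [cls_congr c h]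

lemma av_mono (c : V → κ) {g h : V → ℝ} (x : V) (hgh : ∀ x' , c x' = c x → g x' ≤ h x') :
    av c g x ≤ av c h x := by
  unfold av
  apply div_le_div_of_nonneg_right _ (cls_card_pos c x).le
  exact Finset.sum_le_sum fun y hy => hgh y ((mem_cls c x y).mp hy)

lemma av_const (c : V → κ) (r : ℝ) (x : V) : av c (fun _ => r) x = r := by
  unfold av
  have := cls_card_pos c x
  rw [sum_const, nsmul_eq_mul]; field_simp

lemma av_sub (c : V → κ) (g h : V → ℝ) (x : V) :
    av c (fun y => g y - h y) x = av c g x - av c h x := by
  unfold av; rw [Finset.sum_sub_distrib, sub_div]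

lemma abs_av_le (c : V → κ) (g : V → ℝ) (x : V) : |av c g x| ≤ av c (fun y => |g y|) x := by
  unfold av
  rw [abs_div, abs_of_pos (cls_card_pos c x)]
  exact div_le_div_of_nonneg_right (Finset.abs_sum_le_sum_abs _ _) (cls_card_pos c x).le

lemma E_av (c : V → κ) (g : V → ℝ) : E (fun x => av c g x) = E g := by
  classical
  unfold E av
  congr 1
  have h1 : ∀ x : V, (∑ x' ∈ cls c x, g x') / ((cls c x).card : ℝ)
      = ∑ x' : V, if c x' = c x then g x' / ((cls c x').card : ℝ) else 0 := by
    intro x
    rw [Finset.sum_div, ← Finset.sum_filter]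
    have : cls c x = univ.filter (fun x' => c x' = c x) := by
      unfold cls; congr
    rw [this]
    apply Finset.sum_congr rfl
    intro x' hx'
    have h2 : c x' = c x := (mem_filter.mp hx').2
    rw [← this, cls_congr c h2]
  simp_rw [h1]
  rw [Finset.sum_comm]
  apply Finset.sum_congr rfl
  intro x' _
  rw [← Finset.sum_filter, sum_const, nsmul_eq_mul]
  have : (univ.filter (fun x => c x' = c x)) = cls c x' := by
    ext y; simp [mem_cls, eq_comm]
  rw [this]
  have := cls_card_pos c x'
  field_simp

lemma E_av_swap (c : V → κ) (g : V → V → ℝ) (y : V) :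
    E (fun x => av c (fun y' => g x y') y) = av c (fun y' => E (fun x => g x y')) y := by
  unfold E av
  rw [← Finset.sum_div, Finset.sum_comm, ← Finset.sum_div]
  rw [div_right_comm]

/-- Step function approximation. If the average (over the class of `x`) row distance is at most
`k x`, then `p` is within `2 E k` of a function of the classes. -/
lemma step_approx (p : V → V → ℝ) (h0 : ∀ x y, 0 ≤ p x y) (h1 : ∀ x y, p x y ≤ 1)
    (hanti : ∀ x y, p x y + p y x = 1) (c : V → κ) (k : V → ℝ)
    (hk : ∀ x, av c (fun x' => rho p x x') x ≤ k x) :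
    ∃ W : V → V → ℝ, (∀ x y, 0 ≤ W x y ∧ W x y ≤ 1) ∧
      (∀ x x' y y', c x = c x' → c y = c y' → W x y = W x' y') ∧
      E (fun x => E (fun y => |p x y - W x y|)) ≤ 2 * E k := by
  let A : V → V → ℝ := fun x y => av c (fun x' => p x' y) x
  let W : V → V → ℝ := fun x y => av c (fun y' => A x y') y
  have hA0 : ∀ x y, 0 ≤ A x y := by
    intro x y
    have := av_mono c (g := fun _ => 0) (h := fun x' => p x' y) x (fun x' _ => h0 x' y)
    rwa [av_const] at this
  have hA1 : ∀ x y, A x y ≤ 1 := by
    intro x y
    have := av_mono c (g := fun x' => p x' y) (h := fun _ => 1) x (fun x' _ => h1 x' y)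
    rwa [av_const] at this
  refine ⟨W, ?_, ?_, ?_⟩
  · intro x y
    constructor
    · have := av_mono c (g := fun _ => 0) (h := fun y' => A x y') y (fun y' _ => hA0 x y')
      rwa [av_const] at this
    · have := av_mono c (g := fun y' => A x y') (h := fun _ => 1) y (fun y' _ => hA1 x y')
      rwa [av_const] at this
  · intro x x' y y' hx hy
    have hA : ∀ w, A x w = A x' w := fun w => av_congr c _ hx
    simp only [W]
    have : (fun y' => A x y') = (fun y' => A x' y') := funext hA
    rw [this]
    exact av_congr c _ hy
  · have hpA : E (fun x => E (fun y => |p x y - A x y|)) ≤ E k := by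
      apply E_mono
      intro x
      refine le_trans ?_ (hk x)
      have h2 : ∀ y, |p x y - A x y| ≤ av c (fun x' => |p x y - p x' y|) x := by
        intro y
        have : p x y - A x y = av c (fun x' => p x y - p x' y) x := by
          rw [av_sub, av_const]
        rw [this]
        exact abs_av_le c _ x
      calc E (fun y => |p x y - A x y|) ≤ E (fun y => av c (fun x' => |p x y - p x' y|) x) :=
            E_mono h2
        _ = av c (fun x' => E (fun y => |p x y - p x' y|)) x := E_av_swap c _ x
        _ = av c (fun x' => rho p x x') x := rfl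
    have hAW : E (fun x => E (fun y => |A x y - W x y|)) ≤ E k := by
      have h3 : ∀ x y, |A x y - W x y|
          ≤ av c (fun x' => av c (fun y' => |p y x' - p y' x'|) y) x := by
        intro x y
        have e1 : A x y - W x y = av c (fun y' => A x y - A x y') y := by
          rw [av_sub, av_const]
        have e2 : ∀ y', A x y - A x y' = av c (fun x' => p x' y - p x' y') x := by
          intro y'; rw [av_sub]
        have e3 : ∀ y', |A x y - A x y'| ≤ av c (fun x' => |p x' y - p x' y'|) x := by
          intro y'; rw [e2]; exact abs_av_le c _ x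
        have e4 : ∀ x' y', |p x' y - p x' y'| = |p y x' - p y' x'| := by
          intro x' y'
          have a := hanti x' y; have b := hanti x' y'
          have : p x' y - p x' y' = -(p y x' - p y' x') := by linarith
          rw [this, abs_neg]
        calc |A x y - W x y| ≤ av c (fun y' => |A x y - A x y'|) y := by
              rw [e1]; exact abs_av_le c _ y
          _ ≤ av c (fun y' => av c (fun x' => |p x' y - p x' y'|) x) y :=
              av_mono c y fun y' _ => e3 y'
          _ = av c (fun x' => av c (fun y' => |p x' y - p x' y'|) y) x := by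
              unfold av
              rw [← Finset.sum_div, ← Finset.sum_div, Finset.sum_comm, div_right_comm]
          _ = _ := by simp_rw [e4]
      calc E (fun x => E (fun y => |A x y - W x y|))
          ≤ E (fun x => E (fun y => av c (fun x' => av c (fun y' => |p y x' - p y' x'|) y) x)) :=
            E_mono fun x => E_mono fun y => h3 x y
        _ = E (fun x => av c (fun x' => E (fun y => av c (fun y' => |p y x' - p y' x'|) y)) x) := by
            congr 1; funext x
            exact E_av_swap c (fun y x' => av c (fun y' => |p y x' - p y' x'|) y) x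
        _ = E (fun x' => E (fun y => av c (fun y' => |p y x' - p y' x'|) y)) := E_av c _
        _ = E (fun y => E (fun x' => av c (fun y' => |p y x' - p y' x'|) y)) := by
            unfold E; rw [← Finset.sum_div, Finset.sum_comm, ← Finset.sum_div]
        _ = E (fun y => av c (fun y' => rho p y y') y) := by
            congr 1; funext y
            exact E_av_swap c (fun x' y' => |p y x' - p y' x'|) y
        _ ≤ E k := E_mono hk
    have h4 : ∀ x, E (fun y => |p x y - W x y|)
        ≤ E (fun y => |p x y - A x y|) + E (fun y => |A x y - W x y|) := by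
      intro x
      rw [← E_add]
      exact E_mono fun y => abs_sub_le _ _ _
    calc E (fun x => E (fun y => |p x y - W x y|))
        ≤ E (fun x => E (fun y => |p x y - A x y|) + E (fun y => |A x y - W x y|)) := E_mono h4
      _ = E (fun x => E (fun y => |p x y - A x y|)) + E (fun x => E (fun y => |A x y - W x y|)) :=
          E_add _ _
      _ ≤ 2 * E k := by linarith

/-- Balanced class-preserving maps from `V` to the index set of a sample. -/
lemma exists_transfer (c : V → κ) {q : ℕ} (hq : 0 < q) (z : Fin q → V) (r : ℕ)
    (large : κ → Prop)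
    (hcount : ∀ t, large t →
      Nat.card {x : V // c x = t} ≤ Nat.card {k : Fin q // c (z k) = t} * r) :
    ∃ π : V → Fin q, (∀ x, large (c x) → c (z (π x)) = c x) ∧
      ∀ (L : Finset V), (∀ x ∈ L, large (c x)) → ∀ f : Fin q → ℝ, (∀ k, 0 ≤ f k) →
        ∑ x ∈ L, f (π x) ≤ r * ∑ k, f k := by
  classical
  have hemb : ∀ t, large t → Nonempty ({x : V // c x = t} ↪ {k : Fin q // c (z k) = t} × Fin r) := by
    intro t ht
    apply Function.Embedding.nonempty_of_card_le
    have := hcount t ht
    rw [Nat.card_eq_fintype_card, Nat.card_eq_fintype_card] at this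
    rw [Fintype.card_prod, Fintype.card_fin]
    exact this
  let φ : ∀ t, large t → ({x : V // c x = t} ↪ {k : Fin q // c (z k) = t} × Fin r) :=
    fun t ht => (hemb t ht).some
  let π : V → Fin q := fun x => if h : large (c x) then (φ (c x) h).toFun ⟨x, rfl⟩ |>.1.1 else ⟨0, hq⟩
  have hπ : ∀ x (h : large (c x)), π x = ((φ (c x) h).toFun ⟨x, rfl⟩).1.1 := by
    intro x h; simp only [π]; rw [dif_pos h]
  refine ⟨π, ?_, ?_⟩
  · intro x hx
    rw [hπ x hx]
    exact ((φ (c x) hx).toFun ⟨x, rfl⟩).1.2
  · intro L hL f hf
    by_cases hr : r = 0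
    · -- then L is empty
      have hLe : L = ∅ := by
        rw [Finset.eq_empty_iff_forall_notMem]
        intro x hx
        have w := ((φ (c x) (hL x hx)).toFun ⟨x, rfl⟩).2
        rw [hr] at w
        exact Fin.elim0 w
      subst hLe
      simp [hr]
    · have hr' : 0 < r := Nat.pos_of_ne_zero hr
      let g : V → Fin q × Fin r := fun x =>
        if h : large (c x) then (((φ (c x) h).toFun ⟨x, rfl⟩).1.1, ((φ (c x) h).toFun ⟨x, rfl⟩).2)
        else (⟨0, hq⟩, ⟨0, hr'⟩)
      have hg : ∀ x (h : large (c x)), g x =
          (((φ (c x) h).toFun ⟨x, rfl⟩).1.1, ((φ (c x) h).toFun ⟨x, rfl⟩).2) := by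
        intro x h; simp only [g]; rw [dif_pos h]
      have hinj : Set.InjOn g (L : Set V) := by
        intro x hx x' hx' heq
        have lx := hL x hx
        have lx' := hL x' hx'
        rw [hg x lx, hg x' lx'] at heq
        have e1 := congrArg Prod.fst heq
        have e2 := congrArg Prod.snd heq
        simp only at e1 e2
        have hcc : c x = c x' := by
          rw [← ((φ (c x) lx).toFun ⟨x, rfl⟩).1.2, ← ((φ (c x') lx').toFun ⟨x', rfl⟩).1.2, e1]
        have key : ∀ (t t' : κ) (ht : large t) (ht' : large t') (htt : t = t')
            (u : {x : V // c x = t}) (u' : {x : V // c x = t'}),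
            ((φ t ht).toFun u).1.1 = ((φ t' ht').toFun u').1.1 →
            ((φ t ht).toFun u).2 = ((φ t' ht').toFun u').2 → u.1 = u'.1 := by
          intro t t' ht ht' htt
          subst htt
          intro u u' h1 h2
          have : (φ t ht).toFun u = (φ t ht).toFun u' := by
            apply Prod.ext
            · exact Subtype.ext h1
            · exact h2
          have := (φ t ht).injective this
          rw [this]
        exact key (c x) (c x') lx lx' hcc ⟨x, rfl⟩ ⟨x', rfl⟩ e1 e2
      have h1 : ∑ x ∈ L, f (π x) = ∑ x ∈ L, f (g x).1 := by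
        apply Finset.sum_congr rfl
        intro x hx
        rw [hπ x (hL x hx), hg x (hL x hx)]
      rw [h1, ← Finset.sum_image (f := fun w : Fin q × Fin r => f w.1) hinj]
      calc ∑ w ∈ L.image g, f w.1 ≤ ∑ w : Fin q × Fin r, f w.1 :=
            Finset.sum_le_sum_of_subset_of_nonneg (Finset.subset_univ _) (fun w _ _ => hf w.1)
        _ = r * ∑ k, f k := by
            rw [Fintype.sum_prod_type]
            simp [Finset.mul_sum]

end

end Pool.Agent.Lib.MP4530
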